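import Pool.Agent.H728Z.RC.WSide

/-! The Artin side and the comparison. -/

set_option autoImplicit false

namespace Pool.Agent.H728Z.RC

/-- a group with the presentation of a right-angled Artin group -/
structure IsA {V G : Type} [Group G] (Λ : SimpleGraph V) (T : TG (V × Bool) G) : Prop where
  hι : ∀ x, T.ι x = (x.1, !x.2)
  hC : ∀ x y, T.C x y ↔ Λ.Adj x.1 y.1

namespace IsA

variable {V G : Type} [Group G] [DecidableEq V] {Λ : SimpleGraph V} {T : TG (V × Bool) G}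
  (a : IsA Λ T)

include a

omit [DecidableEq V] in
theorem val_false (p : V) : T.val (p, false) = (T.val (p, true))⁻¹ := by
  rw [← T.val_ι, a.hι]
  rfl

omit [DecidableEq V] in
theorem good (g : G) : Good T g := by
  intro c y u h
  rw [a.hι] at h
  have := congrArg Prod.snd h
  simp at this

theorem exists_ex (p : V) : ∃ φ : G →* Multiplicative ℤ, φ (T.val (p, true)) = .ofAdd 1 ∧
    ∀ q, q ≠ p → φ (T.val (q, true)) = 1 := by
  obtain ⟨φ, h⟩ := T.lift (Multiplicative ℤ)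
    (fun x => if x.1 = p then (if x.2 then .ofAdd 1 else .ofAdd (-1)) else 1)
    (by
      rintro ⟨v, b⟩
      rw [a.hι]
      cases b <;> by_cases h : v = p <;> simp [h])
    (fun _ _ _ => Commute.all _ _)
  exact ⟨φ, by simp [h], fun q hq => by simp [h, hq]⟩

omit [DecidableEq V] in
theorem icS (p : V) : IC T {x | x.1 = p} := fun y h => by rwa [a.hι]

omit [DecidableEq V] in
theorem D_zpow {p : V} {g : G} (hg : g ∈ sub T {x | x.1 = p}) :
    ∃ k : ℤ, g = T.val (p, true) ^ k := by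
  refine sub_ind (a.icS p) (P := fun g => ∃ k : ℤ, g = T.val (p, true) ^ k) ⟨0, by simp⟩ ?_ hg
  rintro _ ⟨v, b⟩ _ rfl ⟨k, rfl⟩
  cases b
  · exact ⟨k - 1, by rw [a.val_false, zpow_sub_one]⟩
  · exact ⟨k + 1, by rw [zpow_add_one]⟩

omit [DecidableEq V] in
theorem val_zpow (s : V × Bool) : ∃ k : ℤ, T.val s = T.val (s.1, true) ^ k := by
  obtain ⟨v, b⟩ := s
  cases b
  · exact ⟨-1, by rw [a.val_false]; simp⟩
  · exact ⟨1, by simp⟩

/-- the class system of generators -/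
def X : CS T V where
  S p := {x | x.1 = p}
  K p := {x | Λ.Adj p x.1}
  z p := T.val (p, true)
  ic := a.icS
  ne p := ⟨(p, true), rfl⟩
  twin p y hy := by
    ext x
    have hy' : y.1 = p := hy
    exact (a.hC _ _).trans (by rw [hy']; rfl)
  zmem p := val_mem rfl
  zinf p k h := by
    obtain ⟨φ, h1, -⟩ := a.exists_ex p
    have := congrArg φ h
    rw [map_one, map_zpow, h1] at this
    simpa using congrArg Multiplicative.toAdd this
  norm p u hu := by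
    obtain ⟨k, rfl⟩ := a.D_zpow hu
    left
    group
  disj p q h x h1 h2 := h (h1.symm.trans h2)
  good p k _ := a.good _

theorem adj_iff (p q : V) : a.X.Adj p q ↔ Λ.Adj p q :=
  ⟨fun h => h (a := (q, true)) rfl, fun h x hx => by
    have hx' : x.1 = q := hx
    change Λ.Adj p x.1
    rwa [hx']⟩

theorem indep {p q : V} (h : p ≠ q) {m n : ℤ} (e : a.X.z p ^ m * a.X.z q ^ n = 1) :
    m = 0 ∧ n = 0 := by
  obtain ⟨φ, h1, h2⟩ := a.exists_ex p
  have h3 := congrArg φ e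
  rw [map_mul, map_zpow, map_zpow, map_one] at h3
  erw [h1, h2 q h.symm] at h3
  have h4 : m = 0 := by simpa using congrArg Multiplicative.toAdd h3
  subst h4
  exact ⟨rfl, a.X.zinf q n (by simpa using e)⟩

end IsA

/-- the centraliser is large -/
def PP {H : Type} [Group H] (h : H) : Prop :=
  h ≠ 1 ∧ ∃ u v, Commute u h ∧ Commute v h ∧ ∀ N : ℕ, 0 < N → ¬ Commute (u ^ N) (v ^ N)

/-- every element has a power in the image -/
def Pw {H G : Type} [Group H] [Group G] (θ : H →* G) : Prop :=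
  ∀ g : G, ∃ M : ℕ, 0 < M ∧ ∃ h, θ h = g ^ M

section Gen

variable {L G I H : Type} [Group G] [Group H] [DecidableEq L] {T : TG L G} {X : CS T I}
  {θ : H →* G}

theorem Pw.cl (hp : Pw θ) (i : I) (x : G) : ∃ h, X.Cl i x (θ h) := by
  obtain ⟨M, hM, h, e⟩ := hp (x * X.z i * x⁻¹)
  exact ⟨h, M, by omega, by rw [e, conj_pow, zpow_natCast]⟩

omit [DecidableEq L] in
theorem comm_of_inj (inj : Function.Injective θ) {a b : H} (h : Commute (θ a) (θ b)) :
    Commute a b := by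
  apply inj
  simpa using h.eq

theorem PP_of (inj : Function.Injective θ) (hp : Pw θ) {h : H} (h1 : h ≠ 1) {q q' : I}
    (hq : q ≠ q') (hn : ¬ X.Adj q q') (x : G) (c1 : ∀ g, X.Cl q x g → Commute g (θ h))
    (c2 : ∀ g, X.Cl q' x g → Commute g (θ h)) : PP h := by
  obtain ⟨u, hu⟩ := hp.cl (X := X) q x
  obtain ⟨v, hv⟩ := hp.cl (X := X) q' x
  refine ⟨h1, u, v, comm_of_inj inj (c1 _ hu), comm_of_inj inj (c2 _ hv), fun N hN hc => ?_⟩
  have a1 := hu.zpow (n := N) (by omega)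
  have a2 := hv.zpow (n := N) (by omega)
  have a3 := hc.symm.map θ
  rw [map_pow, map_pow, ← zpow_natCast, ← zpow_natCast] at a3
  rcases a1.comm a2 a3 with h | h
  · exact hq h.1
  · exact hn h.1

theorem PP_cl (inj : Function.Injective θ) (hp : Pw θ) {h : H} {p q q' : I} {x : G}
    (hh : X.Cl p x (θ h)) (hq : q ≠ q') (hn : ¬ X.Adj q q') (a1 : X.Adj p q) (a2 : X.Adj p q') :
    PP h := by
  refine PP_of inj hp ?_ hq hn x (fun g hg => hg.commute hh a1.symm)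
    (fun g hg => hg.commute hh a2.symm)
  rintro rfl
  exact hh.ne_one (map_one _)

end Gen

section Both

variable {V G₁ G₂ H : Type} [Group G₁] [Group G₂] [Group H] [DecidableEq V]
  {Λ : SimpleGraph V} {T₁ : TG VW G₁} {T₂ : TG (V × Bool) G₂}

/-- a common subgroup of finite index -/
structure Com (w : IsW T₁) (θ₁ : H →* G₁) (θ₂ : H →* G₂) : Prop where
  inj₁ : Function.Injective θ₁
  inj₂ : Function.Injective θ₂
  pw₁ : Pw θ₁
  pw₂ : Pw θ₂
  hK : ∀ h, θ₁ h ∈ w.KW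

namespace Com

variable {w : IsW T₁} {θ₁ : H →* G₁} {θ₂ : H →* G₂} (c : Com w θ₁ θ₂) (a : IsA Λ T₂)
include c

theorem WP {h : H} (hp : PP h) : ∃ i x, w.X.Cl i x (θ₁ h) := by
  obtain ⟨h1, u, v, hu, hv, hn⟩ := hp
  refine w.WP (c.hK h) (fun e => h1 (c.inj₁ (by rw [e, map_one]))) (hu.map θ₁) (hv.map θ₁) ?_
  intro N hN hc
  rw [← map_pow, ← map_pow] at hc
  exact hn N hN (comm_of_inj c.inj₁ hc)

theorem two {p p' q q' : V} (hp : p ≠ p') (hq : q ≠ q') (hn : ¬ a.X.Adj q q')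
    (a1 : a.X.Adj p q) (a2 : a.X.Adj p q') (a3 : a.X.Adj p' q) (a4 : a.X.Adj p' q') : False := by
  obtain ⟨u, hu⟩ := c.pw₂.cl (X := a.X) p 1
  obtain ⟨v, hv⟩ := c.pw₂.cl (X := a.X) p' 1
  have key : ∀ m n : ℤ, m ≠ 0 → ∃ i x, w.X.Cl i x (θ₁ (u ^ m * v ^ n)) := by
    intro m n hm
    apply c.WP
    refine PP_of c.inj₂ c.pw₂ ?_ hq hn 1 ?_ ?_
    · intro e
      obtain ⟨k, hk, e1⟩ := hu
      obtain ⟨l, hl, e2⟩ := hv
      have e3 := congrArg θ₂ e
      rw [map_mul, map_zpow, map_zpow, e1, e2, map_one] at e3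
      simp only [one_mul, inv_one, mul_one, ← zpow_mul] at e3
      exact mul_ne_zero hk hm (a.indep hp e3).1
    · intro g hg
      rw [map_mul, map_zpow, map_zpow]
      exact ((hg.commute hu a1.symm).zpow_right _).mul_right
        ((hg.commute hv a3.symm).zpow_right _)
    · intro g hg
      rw [map_mul, map_zpow, map_zpow]
      exact ((hg.commute hu a2.symm).zpow_right _).mul_right
        ((hg.commute hv a4.symm).zpow_right _)
  obtain ⟨i, x, hi⟩ := c.WP (PP_cl c.inj₂ c.pw₂ hu hq hn a1 a2)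
  obtain ⟨j, y, hj⟩ := c.WP (PP_cl c.inj₂ c.pw₂ hv hq hn a3 a4)
  by_cases hij : i = j
  · subst hij
    obtain ⟨k, hk, e1⟩ := hi.ret_eq
    obtain ⟨l, hl, e2⟩ := hj.ret_eq
    obtain ⟨m, t, hm⟩ := key l (-k) hl
    apply hm.ret_eq.ne_one
    rw [map_mul, map_zpow, map_zpow, map_mul, map_zpow, map_zpow]
    by_cases hmi : m = i
    · subst hmi
      rw [e1, e2]
      group
    · rw [hi.ret_ne hmi, hj.ret_ne hmi]
      simp
  · obtain ⟨m, t, hm⟩ := key 1 1 one_ne_zero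
    rw [zpow_one, zpow_one, map_mul] at hm
    by_cases hmi : m = i
    · subst hmi
      have := hm.ret_ne (Ne.symm hij)
      rw [map_mul, hi.ret_ne (Ne.symm hij), one_mul] at this
      exact hj.ret_eq.ne_one this
    · have := hm.ret_ne (Ne.symm hmi)
      rw [map_mul, hj.ret_ne hij, mul_one] at this
      exact hi.ret_eq.ne_one this

theorem AP {h : H} (hp : PP h) : ∃ p α, a.X.Cl p α (θ₂ h) := by
  obtain ⟨h1, u, v, hu, hv, hn⟩ := hp
  obtain ⟨d, N, S, hN, hg, hc⟩ := cent_S1 (a.good (θ₂ h)) (hu.map θ₂) (hv.map θ₂)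
  have h1' : d * θ₂ h * d⁻¹ ≠ 1 := by
    have : θ₂ h ≠ 1 := fun e => h1 (c.inj₂ (by rw [e, map_one]))
    simpa using this
  have icU : IC T₂ {t | ∀ s ∈ S, T₂.C s t} := fun y hy s hs => T₂.C_ι' (hy s hs)
  by_cases e : ∀ s ∈ {t | ∀ s ∈ S, T₂.C s t}, ∀ t ∈ {t | ∀ s ∈ S, T₂.C s t},
      s.1 = t.1 ∨ Λ.Adj s.1 t.1
  · exfalso
    apply hn N hN
    apply comm_of_inj c.inj₂
    have a1 := ret_of_mem icU hc
    have a0 : ∀ g ∈ sub T₂ {t | ∀ s ∈ S, T₂.C s t}, ∀ k ∈ sub T₂ {t | ∀ s ∈ S, T₂.C s t},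
        Commute g k := by
      intro g hg k hk
      refine sub_ind icU (P := fun g => Commute g k) (Commute.one_left _) ?_ hg
      intro g s _ hs ih
      refine ih.mul_left ?_
      refine sub_ind icU (P := fun k => Commute (T₂.val s) k) (Commute.one_right _) ?_ hk
      intro k t _ ht ih
      refine ih.mul_right ?_
      rcases e s hs t ht with h2 | h2
      · obtain ⟨m, hm⟩ := a.val_zpow s
        obtain ⟨n, hn⟩ := a.val_zpow t
        rw [hm, hn, h2]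
        exact Commute.zpow_zpow_self _ _ _
      · exact T₂.val_comm _ _ ((a.hC _ _).2 h2)
    simp only [map_mul, map_inv] at a1
    rw [(a0 _ (ret_mem' icU (θ₂ u ^ N)) _ (ret_mem' icU (θ₂ v ^ N))).eq] at a1
    simp only [mul_inv_cancel_right, mul_inv_cancel, mul_one] at a1
    have a3 : θ₂ u ^ N * θ₂ v ^ N * (θ₂ u ^ N)⁻¹ * (θ₂ v ^ N)⁻¹ = 1 := by
      simpa using a1.symm
    rw [mul_inv_eq_one, mul_inv_eq_iff_eq_mul] at a3
    rw [map_pow, map_pow]
    exact a3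
  · push Not at e
    obtain ⟨s, hs, t, ht, h2, h3⟩ := e
    rcases S.eq_empty_or_nonempty with rfl | ⟨x, hx⟩
    · exact absurd (sub_empty hg) h1'
    have k3 : S ⊆ {y | y.1 = x.1} := by
      intro y hy
      by_contra hc
      exact c.two a hc h2 (fun h => h3 ((a.adj_iff _ _).1 h))
        ((a.adj_iff _ _).2 ((a.hC _ _).1 (hs y hy))) ((a.adj_iff _ _).2 ((a.hC _ _).1 (ht y hy)))
        ((a.adj_iff _ _).2 ((a.hC _ _).1 (hs x hx))) ((a.adj_iff _ _).2 ((a.hC _ _).1 (ht x hx)))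
    obtain ⟨k, hk⟩ := a.D_zpow (sub_mono k3 hg)
    refine ⟨x.1, d⁻¹, k, ?_, ?_⟩
    · rintro rfl
      exact h1' (by simpa using hk)
    · change _ = _ * T₂.val (x.1, true) ^ k * _
      rw [← hk]
      group

theorem tri₂ {i : Fin 5} {x : G₁} {p : V} {α : G₂} (h : R w.X a.X θ₁ θ₂ i x p α) : a.X.Tri p := by
  intro s hs t ht hst
  obtain ⟨h0, b1, b2⟩ := h
  have a1 : a.X.Adj p s.1 := (a.adj_iff _ _).2 hs
  have a2 : a.X.Adj p t.1 := (a.adj_iff _ _).2 ht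
  have a3 : a.X.Adj s.1 t.1 := (a.adj_iff _ _).2 ((a.hC _ _).1 hst)
  obtain ⟨u, hu⟩ := c.pw₂.cl (X := a.X) s.1 α
  obtain ⟨v, hv⟩ := c.pw₂.cl (X := a.X) t.1 α
  have c1 := (comm_of_inj c.inj₂ (hu.commute b2 a1.symm)).map θ₁
  have c2 := (comm_of_inj c.inj₂ (hv.commute b2 a2.symm)).map θ₁
  have c3 := (comm_of_inj c.inj₂ (hu.commute hv a3)).map θ₁
  obtain ⟨k0, hk0, e0⟩ := b1
  have e1 : x⁻¹ * θ₁ h0 * x⁻¹⁻¹ = w.X.z i ^ k0 := by rw [e0]; group
  have d1 := comm_conj c1 x⁻¹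
  have d2 := comm_conj c2 x⁻¹
  rw [e1] at d1 d2
  obtain ⟨m, n, k, hmn, e2⟩ := w.free_rel (CS.cent hk0 d1) (CS.cent hk0 d2)
    (w.KW_conj (c.hK u) _) (w.KW_conj (c.hK v) _) (comm_conj c3 x⁻¹)
  have e3 : ((u ^ m)⁻¹ * v ^ n) ^ k0 = h0 ^ k := by
    apply c.inj₁
    have e4 : θ₁ ((u ^ m)⁻¹ * v ^ n) = x * w.X.z i ^ k * x⁻¹ := by
      rw [← e2, conj_zpow, conj_zpow, map_mul, map_inv, map_zpow, map_zpow]
      group
    rw [map_zpow, map_zpow, e4, e0, conj_zpow, conj_zpow, ← zpow_mul, ← zpow_mul, mul_comm k]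
  obtain ⟨l0, hl0, f0⟩ := b2
  obtain ⟨l1, hl1, f1⟩ := hu
  obtain ⟨l2, hl2, f2⟩ := hv
  have e5 := congrArg θ₂ e3
  simp only [map_zpow, map_mul, map_inv, f0, f1, f2] at e5
  rcases hmn with hm | hm
  · obtain ⟨φ, g1, g2⟩ := a.exists_ex s.1
    have e6 := congrArg φ e5
    simp only [map_zpow, map_mul, map_inv] at e6
    erw [g1, g2 p a1.ne, g2 t.1 a3.ne.symm] at e6
    have e7 := congrArg Multiplicative.toAdd e6
    simp [hk0, hm, hl1] at e7
  · obtain ⟨φ, g1, g2⟩ := a.exists_ex t.1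
    have e6 := congrArg φ e5
    simp only [map_zpow, map_mul, map_inv] at e6
    erw [g1, g2 p a2.ne, g2 s.1 a3.ne] at e6
    have e7 := congrArg Multiplicative.toAdd e6
    simp [hk0, hm, hl2] at e7

theorem ctx : Ctx w.X a.X θ₁ θ₂ where
  inj₁ := c.inj₁
  inj₂ := c.inj₂
  adj₁ j := (w.adj_iff _ _).2 (Or.inl rfl)
  tri₁ := w.tri
  sq₁ := w.noSq
  sq₂ := by
    intro i j k ht hij a1 a2 s hs
    by_contra hc
    have b1 : a.X.Adj i s.1 := (a.adj_iff _ _).2 hs.1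
    exact c.two a hij hc (fun h => CS.no_tri ht b1 a1 h) b1 a1 ((a.adj_iff _ _).2 hs.2) a2
  h1 i x := by
    obtain ⟨h, hh⟩ := c.pw₁.cl (X := w.X) i x
    have e : ∀ i : Fin 5, i + 1 ≠ i + 4 ∧ ¬ (i + 4 = i + 1 + 1 ∨ i + 1 = i + 4 + 1) ∧
        i = i + 4 + 1 := by decide
    obtain ⟨p, α, hp⟩ := c.AP a (PP_cl c.inj₁ c.pw₁ hh (e i).1
      (fun h => (e i).2.1 ((w.adj_iff _ _).1 h)) ((w.adj_iff _ _).2 (Or.inl rfl))
      ((w.adj_iff _ _).2 (Or.inr (e i).2.2)))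
    exact ⟨p, α, h, hh, hp⟩
  tri₂ _ _ _ _ h := c.tri₂ a h
  h2 p q q' a1 a2 hq ht α := by
    obtain ⟨h, hh⟩ := c.pw₂.cl (X := a.X) p α
    obtain ⟨i, x, hi⟩ := c.WP (PP_cl c.inj₂ c.pw₂ hh hq (fun h => CS.no_tri ht a1 a2 h) a1 a2)
    exact ⟨i, x, h, hi, hh⟩
  hmax := w.hmax

end Com

end Both

end Pool.Agent.H728Z.RC
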