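import Pool.Agent.H728Z.RC.Cent

/-! Class systems: distinguished cyclic subgroups and their normalisers. -/

set_option autoImplicit false

namespace Pool.Agent.H728Z.RC

variable {L G : Type} [Group G] [DecidableEq L]

/-- a system of distinguished infinite cyclic subgroups carried by twin letters -/
structure CS (T : TG L G) (I : Type) where
  S : I → Set L
  K : I → Set L
  z : I → G
  ic : ∀ i, IC T (S i)
  ne : ∀ i, (S i).Nonempty
  twin : ∀ i, ∀ y ∈ S i, lk T y = K i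
  zmem : ∀ i, z i ∈ sub T (S i)
  zinf : ∀ i (k : ℤ), z i ^ k = 1 → k = 0
  norm : ∀ i, ∀ u ∈ sub T (S i), u * z i * u⁻¹ = z i ∨ u * z i * u⁻¹ = (z i)⁻¹
  disj : ∀ i j, i ≠ j → ∀ x ∈ S i, x ∉ S j
  good : ∀ i (k : ℤ), k ≠ 0 → Good T (z i ^ k)

namespace CS

variable {T : TG L G} {I : Type} (X : CS T I)

/-- star -/
def St (i : I) : Set L := X.S i ∪ X.K i

/-- normaliser -/
def N (i : I) : Subgroup G := sub T (X.St i)

/-- adjacency of types -/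
def Adj (i j : I) : Prop := X.S j ⊆ X.K i

/-- the link has no edge -/
def Tri (i : I) : Prop := ∀ s ∈ X.K i, ∀ t ∈ X.K i, ¬ T.C s t

/-- no squares -/
def NoSq : Prop := ∀ i j k, X.Tri i → i ≠ j → X.Adj i k → X.Adj j k → X.K i ∩ X.K j ⊆ X.S k

/-- `g` lies in the class of type `i` at `x` -/
def Cl (i : I) (x g : G) : Prop := ∃ k : ℤ, k ≠ 0 ∧ g = x * X.z i ^ k * x⁻¹

theorem comm_SK {i : I} : ∀ s ∈ X.S i, ∀ t ∈ X.K i, T.C s t := by
  intro s hs t ht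
  rw [← X.twin i s hs] at ht
  exact ht

theorem icK (i : I) : IC T (X.K i) := by
  obtain ⟨y, hy⟩ := X.ne i
  rw [← X.twin i y hy]
  exact lk_ic T y

theorem icSt (i : I) : IC T (X.St i) := (X.ic i).union (X.icK i)

theorem notK {i : I} : ∀ x ∈ X.S i, x ∉ X.K i := fun x hx h => T.irrefl x (X.comm_SK x hx x h)

variable {X}

theorem adj_of_mem {i j : I} {x : L} (h1 : x ∈ X.S j) (h2 : x ∈ X.K i) : X.Adj i j := by
  obtain ⟨y, hy⟩ := X.ne i
  have h3 : y ∈ X.K j := by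
    rw [← X.twin j x h1]
    exact T.symm (X.comm_SK y hy x h2)
  intro w hw
  rw [← X.twin i y hy]
  exact T.symm (X.comm_SK w hw y h3)

theorem Adj.symm {i j : I} (h : X.Adj i j) : X.Adj j i := by
  obtain ⟨y, hy⟩ := X.ne i
  obtain ⟨x, hx⟩ := X.ne j
  refine adj_of_mem hy ?_
  rw [← X.twin j x hx]
  exact T.symm (X.comm_SK y hy x (h hx))

theorem Adj.ne {i j : I} (h : X.Adj i j) : i ≠ j := by
  rintro rfl
  obtain ⟨y, hy⟩ := X.ne i
  exact X.notK y hy (h hy)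

theorem Adj.C {i j : I} (h : X.Adj i j) : ∀ s ∈ X.S i, ∀ t ∈ X.S j, T.C s t :=
  fun s hs t ht => X.comm_SK s hs t (h ht)

theorem D_le (i : I) : sub T (X.S i) ≤ X.N i := sub_mono Set.subset_union_left

theorem K_le (i : I) : sub T (X.K i) ≤ X.N i := sub_mono Set.subset_union_right

theorem Adj.D_le {i j : I} (h : X.Adj i j) : sub T (X.S j) ≤ X.N i :=
  sub_mono (Set.Subset.trans h Set.subset_union_right)

theorem no_tri {i j k : I} (ht : X.Tri i) (h1 : X.Adj i j) (h2 : X.Adj i k) (h3 : X.Adj j k) :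
    False := by
  obtain ⟨y, hy⟩ := X.ne j
  obtain ⟨x, hx⟩ := X.ne k
  exact ht y (h1 hy) x (h2 hx) (h3.C y hy x hx)

theorem cent {i : I} {k : ℤ} (hk : k ≠ 0) {u : G} (hu : Commute u (X.z i ^ k)) : u ∈ X.N i := by
  obtain ⟨y, hy, h⟩ := cent_S2 (X.ic i) (zpow_mem (X.zmem i) k) (fun h => hk (X.zinf i k h))
    (X.good i k hk) hu
  rwa [X.twin i y hy] at h

theorem conj_z {i : I} {u : G} (hu : u ∈ X.N i) :
    ∃ e : ℤ, e ≠ 0 ∧ ∀ k : ℤ, u * X.z i ^ k * u⁻¹ = X.z i ^ (e * k) := by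
  obtain ⟨a, ha, b, hb, rfl⟩ := sub_split X.comm_SK hu
  have h1 := (sub_commute X.comm_SK (X.zmem i) hb).eq
  have h2 : a * b * X.z i * (a * b)⁻¹ = a * X.z i * a⁻¹ := by
    rw [mul_assoc a, ← h1]
    group
  rcases X.norm i a ha with h | h
  · exact ⟨1, one_ne_zero, fun k => by rw [← conj_zpow, h2, h, one_mul]⟩
  · exact ⟨-1, by norm_num, fun k => by rw [← conj_zpow, h2, h]; simp⟩

theorem Cl.move {i : I} {x y g : G} (h : X.Cl i x g) (hy : x⁻¹ * y ∈ X.N i) : X.Cl i y g := by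
  obtain ⟨k, hk, rfl⟩ := h
  obtain ⟨e, he, h1⟩ := conj_z (inv_mem hy)
  refine ⟨e * k, mul_ne_zero he hk, ?_⟩
  rw [← h1]
  group

theorem Cl.conj {i : I} {x g : G} (h : X.Cl i x g) (c : G) : X.Cl i (c * x) (c * g * c⁻¹) := by
  obtain ⟨k, hk, rfl⟩ := h
  exact ⟨k, hk, by group⟩

theorem Cl.zpow {i : I} {x g : G} (h : X.Cl i x g) {n : ℤ} (hn : n ≠ 0) : X.Cl i x (g ^ n) := by
  obtain ⟨k, hk, rfl⟩ := h
  exact ⟨k * n, mul_ne_zero hk hn, by rw [conj_zpow, zpow_mul]⟩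

theorem Cl.ne_one {i : I} {x g : G} (h : X.Cl i x g) : g ≠ 1 := by
  obtain ⟨k, hk, rfl⟩ := h
  intro h
  exact hk (X.zinf i k (by simpa using h))

theorem Cl.ret_ne {i j : I} (hij : i ≠ j) {x g : G} (h : X.Cl j x g) : ret T (X.S i) g = 1 := by
  obtain ⟨k, -, rfl⟩ := h
  rw [map_mul, map_mul, map_zpow, ret_kill (X.ic i) (X.disj i j hij) (X.zmem j)]
  simp

theorem Cl.ret_eq {i : I} {x g : G} (h : X.Cl i x g) : X.Cl i 1 (ret T (X.S i) g) := by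
  obtain ⟨k, hk, rfl⟩ := h
  rw [map_mul, map_mul, map_zpow, ret_of_mem (X.ic i) (X.zmem i), map_inv]
  refine Cl.move (x := ret T (X.S i) x) ⟨k, hk, rfl⟩ ?_
  rw [mul_one]
  exact inv_mem (D_le i (ret_mem' (X.ic i) x))

theorem Cl.aux {i j : I} {y g : G} (h : X.Cl j y g) (hg : g ∈ X.N i) :
    X.S j ⊆ X.St i ∧ (ret T (X.St i) y)⁻¹ * y ∈ X.N j := by
  have h0 := h.ne_one
  obtain ⟨l, hl, rfl⟩ := h
  have h1 := ret_of_mem (X.icSt i) hg
  rw [map_mul, map_mul, map_zpow, map_inv] at h1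
  have h2 : X.S j ⊆ X.St i := by
    by_cases hij : i = j
    · subst hij
      exact Set.subset_union_left
    · by_contra hc
      apply h0
      rw [← h1, ret_kill (X.icSt i) _ (X.zmem j)]
      · simp
      · rintro x (hx | hx) hx'
        · exact X.disj i j hij x hx hx'
        · exact hc (Set.Subset.trans (adj_of_mem hx' hx) Set.subset_union_right)
  refine ⟨h2, cent hl ?_⟩
  rw [ret_of_mem (X.icSt i) (sub_mono h2 (X.zmem j))] at h1
  change _ * _ = _ * _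
  calc (ret T (X.St i) y)⁻¹ * y * X.z j ^ l
      = (ret T (X.St i) y)⁻¹ * (y * X.z j ^ l * y⁻¹) * y := by group
    _ = _ := by rw [← h1]; group

theorem Cl.comm {i j : I} {x y g g' : G} (h : X.Cl i x g) (h' : X.Cl j y g') (hc : Commute g' g) :
    (i = j ∧ x⁻¹ * y ∈ X.N i) ∨ (X.Adj i j ∧ ∃ w, x⁻¹ * w ∈ X.N i ∧ y⁻¹ * w ∈ X.N j) := by
  obtain ⟨k, hk, rfl⟩ := h
  have h1 := comm_conj hc x⁻¹
  have h2 : x⁻¹ * (x * X.z i ^ k * x⁻¹) * x⁻¹⁻¹ = X.z i ^ k := by group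
  rw [h2] at h1
  obtain ⟨h3, h4⟩ := (h'.conj x⁻¹).aux (cent hk h1)
  have h5 : ret T (X.St i) (x⁻¹ * y) ∈ X.N i := ret_mem' (X.icSt i) _
  by_cases hij : i = j
  · subst hij
    left
    refine ⟨rfl, ?_⟩
    have := mul_mem h5 h4
    rwa [mul_inv_cancel_left] at this
  · right
    obtain ⟨s, hs⟩ := X.ne j
    refine ⟨?_, x * ret T (X.St i) (x⁻¹ * y), by rwa [inv_mul_cancel_left], ?_⟩
    · rcases h3 hs with h6 | h6
      · exact absurd hs (X.disj i j hij s h6)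
      · exact adj_of_mem hs h6
    · have := inv_mem h4
      convert this using 1
      group

theorem Cl.same {i j : I} {x y g : G} (h : X.Cl i x g) (h' : X.Cl j y g) :
    i = j ∧ x⁻¹ * y ∈ X.N i := by
  rcases h.comm h' (Commute.refl g) with h1 | ⟨h1, -⟩
  · exact h1
  · exact absurd (h'.ret_ne h1.ne) h.ret_eq.ne_one

theorem Cl.commute {i j : I} {w g g' : G} (h : X.Cl i w g) (h' : X.Cl j w g') (ha : X.Adj i j) :
    Commute g g' := by
  obtain ⟨k, -, rfl⟩ := h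
  obtain ⟨l, -, rfl⟩ := h'
  exact comm_conj (sub_commute ha.C (zpow_mem (X.zmem i) k) (zpow_mem (X.zmem j) l)) w

theorem near {i j : I} (ht : X.Tri i) (h : X.Adj i j) : X.St i ∩ X.St j ⊆ X.S i ∪ X.S j := by
  rintro x ⟨h1 | h1, h2 | h2⟩
  · exact Or.inl h1
  · exact Or.inl h1
  · exact Or.inr h2
  · obtain ⟨y, hy⟩ := X.ne j
    exact absurd (X.comm_SK y hy x h2) (ht y (h hy) x h1)

theorem far_ne {a c d e : I} (ta : X.Tri a) (cd : X.Adj c d) (de : X.Adj d e) (ea : X.Adj e a) :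
    a ≠ c := by
  rintro rfl
  exact no_tri ta cd ea.symm de

theorem far (hsq : X.NoSq) {a b c d e : I} (ta : X.Tri a) (ab : X.Adj a b) (bc : X.Adj b c)
    (cd : X.Adj c d) (de : X.Adj d e) (ea : X.Adj e a) : X.St a ∩ X.St c ⊆ X.S b := by
  have h1 := far_ne ta cd de ea
  have h2 : ¬ X.Adj a c := fun h => no_tri ta ab h bc
  rintro x ⟨h3 | h3, h4 | h4⟩
  · exact absurd h4 (X.disj a c h1 x h3)
  · exact absurd (adj_of_mem h3 h4).symm h2
  · exact absurd (adj_of_mem h4 h3) h2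
  · exact hsq a c b ta h1 ab bc.symm ⟨h3, h4⟩

theorem pent_step (hsq : X.NoSq) {a b c d e : I} (tb : X.Tri b) (ab : X.Adj a b) (bc : X.Adj b c)
    (cd : X.Adj c d) (de : X.Adj d e) (ea : X.Adj e a) {y1 y4 n2 n3 n4 : G} (h1 : y1 ∈ X.N b)
    (h4 : y4 ∈ X.N a) (g2 : n2 ∈ X.N c) (g3 : n3 ∈ X.N d) (g4 : n4 ∈ X.N e)
    (h : y1 * n2 * n3 = y4 * n4) : ∃ p ∈ sub T (X.S a), p⁻¹ * y1 ∈ X.N c := by
  have e1 := congrArg (ret T (X.St b)) h
  rw [map_mul, map_mul, map_mul, ret_of_mem (X.icSt b) h1] at e1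
  have a1 : ret T (X.St b) n2 ∈ X.N c :=
    sub_mono Set.inter_subset_right (ret_mem (X.icSt b) g2)
  have a2 : ret T (X.St b) n3 ∈ X.N c :=
    D_le c (sub_mono (far hsq tb bc cd de ea ab) (ret_mem (X.icSt b) g3))
  have a3 : ret T (X.St b) n4 ∈ sub T (X.S a) :=
    sub_mono (far hsq tb ab.symm ea.symm de.symm cd.symm bc.symm) (ret_mem (X.icSt b) g4)
  have a4 : ret T (X.St b) y4 ∈ sub T (X.S b ∪ X.S a) :=
    sub_mono (near tb ab.symm) (ret_mem (X.icSt b) h4)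
  obtain ⟨p, hp, q, hq, e2⟩ := sub_split ab.symm.C a4
  have a5 := mul_mem hq a3
  refine ⟨_, a5, ?_⟩
  have e3 := (sub_commute ab.symm.C hp a5).eq
  have e4 : (q * ret T (X.St b) n4)⁻¹ * y1 =
      p * (ret T (X.St b) n2 * ret T (X.St b) n3)⁻¹ := by
    rw [e2, mul_assoc p, e3] at e1
    rw [inv_mul_eq_iff_eq_mul, ← mul_assoc, ← e1]
    group
  rw [e4]
  exact mul_mem (bc.symm.D_le hp) (inv_mem (mul_mem a1 a2))

theorem pent5 (hsq : X.NoSq) {a b c d e : I} (ta : X.Tri a) (tb : X.Tri b) (tc : X.Tri c)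
    (ab : X.Adj a b) (bc : X.Adj b c) (cd : X.Adj c d) (de : X.Adj d e) (ea : X.Adj e a)
    {o w1 w2 w3 w4 : G} (h1 : o⁻¹ * w1 ∈ X.N b) (h2 : w1⁻¹ * w2 ∈ X.N c)
    (h3 : w2⁻¹ * w3 ∈ X.N d) (h4 : w4⁻¹ * w3 ∈ X.N e) (h5 : o⁻¹ * w4 ∈ X.N a) :
    ∃ z, o⁻¹ * z ∈ X.N a ∧ o⁻¹ * z ∈ X.N b ∧ w1⁻¹ * z ∈ X.N c ∧ w2⁻¹ * z ∈ X.N d ∧
      w4⁻¹ * z ∈ X.N e := by
  obtain ⟨p, hp, hp'⟩ := pent_step hsq tb ab bc cd de ea h1 h5 h2 h3 h4 (by group)
  obtain ⟨q, hq, hq'⟩ := pent_step hsq ta ab.symm ea.symm de.symm cd.symm bc.symm h5 h1 h4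
    (inv_mem h3) h2 (by group)
  have e1 := (sub_commute ab.C hp hq).eq
  have c2 : w1⁻¹ * (o * p * q) ∈ X.N c := by
    have := mul_mem (inv_mem hp') (bc.symm.D_le hq)
    convert this using 1
    group
  have c4 : w4⁻¹ * (o * p * q) ∈ X.N e := by
    have := mul_mem (inv_mem hq') (ea.D_le hp)
    rw [mul_assoc o, e1]
    convert this using 1
    group
  refine ⟨o * p * q, ?_, ?_, c2, ?_, c4⟩
  · rw [mul_assoc, inv_mul_cancel_left]
    exact mul_mem (D_le a hp) (ab.D_le hq)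
  · rw [mul_assoc, inv_mul_cancel_left]
    exact mul_mem (ab.symm.D_le hp) (D_le b hq)
  · have b1 : (o * p * q)⁻¹ * w2 ∈ X.N c := by
      have := mul_mem (inv_mem c2) h2
      convert this using 1
      group
    have b2 : (o * p * q)⁻¹ * w3 ∈ X.N e := by
      have := mul_mem (inv_mem c4) h4
      convert this using 1
      group
    have b3 : (o * p * q)⁻¹ * w2 = (o * p * q)⁻¹ * w3 * (w2⁻¹ * w3)⁻¹ := by group
    have b4 := congrArg (ret T (X.St c)) b3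
    rw [ret_of_mem (X.icSt c) b1, map_mul, map_inv] at b4
    have b5 : (o * p * q)⁻¹ * w2 ∈ X.N d := by
      rw [b4]
      exact mul_mem (D_le d (sub_mono (far hsq tc cd de ea ab bc) (ret_mem (X.icSt c) b2)))
        (inv_mem (sub_mono Set.inter_subset_right (ret_mem (X.icSt c) h3)))
    have := inv_mem b5
    convert this using 1
    group

theorem pent (hsq : X.NoSq) {τ : Fin 5 → I} {x : Fin 5 → G} (ht : ∀ j, X.Tri (τ j))
    (ha : ∀ j, X.Adj (τ j) (τ (j + 1)))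
    (hw : ∀ j, ∃ w, (x j)⁻¹ * w ∈ X.N (τ j) ∧ (x (j + 1))⁻¹ * w ∈ X.N (τ (j + 1))) :
    ∃ z, ∀ j, (x j)⁻¹ * z ∈ X.N (τ j) := by
  obtain ⟨o, a0, b0⟩ := hw 0
  obtain ⟨w1, a1, b1⟩ := hw 1
  obtain ⟨w2, a2, b2⟩ := hw 2
  obtain ⟨w3, a3, b3⟩ := hw 3
  obtain ⟨w4, a4, b4⟩ := hw 4
  have key : ∀ (M : Subgroup G) (p q r : G), p⁻¹ * q ∈ M → p⁻¹ * r ∈ M → q⁻¹ * r ∈ M := by
    intro M p q r h1 h2
    have := mul_mem (inv_mem h1) h2
    convert this using 1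
    group
  have key2 : ∀ (M : Subgroup G) (p q r : G), p⁻¹ * q ∈ M → q⁻¹ * r ∈ M → p⁻¹ * r ∈ M := by
    intro M p q r h1 h2
    have := mul_mem h1 h2
    convert this using 1
    group
  obtain ⟨z, c0, c1, c2, c3, c4⟩ := pent5 hsq (ht 0) (ht 1) (ht 2) (ha 0) (ha 1) (ha 2) (ha 3)
    (ha 4) (key _ _ _ _ b0 a1) (key _ _ _ _ b1 a2) (key _ _ _ _ b2 a3) (key _ _ _ _ a4 b3)
    (key _ _ _ _ a0 b4)
  refine ⟨z, fun j => ?_⟩
  fin_cases j
  · exact key2 _ _ _ _ a0 c0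
  · exact key2 _ _ _ _ b0 c1
  · exact key2 _ _ _ _ b1 c2
  · exact key2 _ _ _ _ b2 c3
  · exact key2 _ _ _ _ a4 c4

theorem five : ∀ j : Fin 5, j + 1 + 1 + 1 + 1 + 1 = j := by decide

theorem pent_far (hsq : X.NoSq) {τ : Fin 5 → I} (ht : ∀ j, X.Tri (τ j))
    (ha : ∀ j, X.Adj (τ j) (τ (j + 1))) (j : Fin 5) {u : G} (h1 : u ∈ X.N (τ j))
    (h2 : u ∈ X.N (τ (j + 1 + 1))) : u ∈ sub T (X.S (τ (j + 1))) := by
  have e : j + 1 + 1 + 1 + 1 + 1 = j := five j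
  have a := ha (j + 1 + 1 + 1 + 1)
  rw [e] at a
  exact sub_mono (far hsq (ht j) (ha j) (ha _) (ha _) (ha _) a) (mem_inter (X.icSt _) h1 h2)

theorem pent_uniq (hsq : X.NoSq) {τ : Fin 5 → I} (ht : ∀ j, X.Tri (τ j))
    (ha : ∀ j, X.Adj (τ j) (τ (j + 1))) {u : G} (h : ∀ j, u ∈ X.N (τ j)) : u = 1 := by
  have h1 := pent_far hsq ht ha 0 (h _) (h _)
  have h2 := pent_far hsq ht ha (0 + 1) (h _) (h _)
  exact sub_empty (sub_mono (fun x hx => X.disj _ _ (ha (0 + 1)).ne x hx.1 hx.2)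
    (mem_inter (X.ic _) h1 h2))

theorem pent_ne {τ : Fin 5 → I} (ht : ∀ j, X.Tri (τ j)) (ha : ∀ j, X.Adj (τ j) (τ (j + 1)))
    (j : Fin 5) : τ j ≠ τ (j + 1 + 1) := by
  have e : j + 1 + 1 + 1 + 1 + 1 = j := five j
  have a := ha (j + 1 + 1 + 1 + 1)
  rw [e] at a
  exact far_ne (ht j) (ha _) (ha _) a

theorem pent_inj {τ : Fin 5 → I} (ht : ∀ j, X.Tri (τ j)) (ha : ∀ j, X.Adj (τ j) (τ (j + 1))) :
    Function.Injective τ := by
  intro a b h
  have e : ∀ a b : Fin 5, a = b ∨ b = a + 1 ∨ a = b + 1 ∨ b = a + 1 + 1 ∨ a = b + 1 + 1 := by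
    decide
  rcases e a b with h1 | rfl | rfl | rfl | rfl
  · exact h1
  · exact absurd h (ha a).ne
  · exact absurd h.symm (ha b).ne
  · exact absurd h (pent_ne ht ha a)
  · exact absurd h.symm (pent_ne ht ha b)

theorem ret_eq_iff {i : I} {u v : G} (hu : u ∈ X.N i) (hv : v ∈ X.N i) :
    ret T (X.K i) u = ret T (X.K i) v ↔ u⁻¹ * v ∈ sub T (X.S i) := by
  constructor
  · intro h
    obtain ⟨a, ha, b, hb, e⟩ := sub_split X.comm_SK (mul_mem (inv_mem hu) hv)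
    have h1 := congrArg (ret T (X.K i)) e
    rw [map_mul, map_mul, map_inv, h, inv_mul_cancel,
      ret_kill (X.icK i) (fun x h1 h2 => X.notK x h2 h1) ha, ret_of_mem (X.icK i) hb, one_mul] at h1
    rw [e, ← h1, mul_one]
    exact ha
  · intro h
    have h1 := ret_kill (X.icK i) (fun x h1 h2 => X.notK x h2 h1) h
    rwa [map_mul, map_inv, inv_mul_eq_one] at h1

end CS

end Pool.Agent.H728Z.RC
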