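import Pool.Agent.H728Z.RC.Half

/-! Centralisers through half-spaces. -/

set_option autoImplicit false

open Pointwise

namespace Pool.Agent.H728Z.RC

variable {L G : Type} [Group G] (T : TG L G) [DecidableEq L]

/-- half-space -/
def HS (x : G) (y : L) : Set G := {z | Fst T y (x⁻¹ * z)}

/-- half-spaces crossed by a path -/
def Pre (z : G) : List L → Set (Set G)
  | [] => ∅
  | s :: w => insert (HS T (z * ev T w) s) (Pre z w)

/-- half-spaces moved properly into themselves -/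
def Hg (g : G) (h : Set G) : Prop := (∃ x y, h = HS T x y) ∧ g • h ⊂ h

/-- shortest in the conjugacy class -/
def CM (g : G) : Prop := ∀ c : G, len T g ≤ len T (c * g * c⁻¹)

/-- no conjugate flips a hyperplane -/
def Good (g : G) : Prop :=
  ∀ (c : G) (y : L) (u : G), T.ι y = y → u ∈ sub T (lk T y) → c * g * c⁻¹ ≠ T.val y * u

variable {T}

omit [DecidableEq L] in
theorem Good.conj {g : G} (h : Good T g) (c : G) : Good T (c * g * c⁻¹) := by
  intro d y u h1 h2
  have := h (d * c) y u h1 h2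
  simpa [mul_assoc] using this

omit [DecidableEq L] in
theorem smul_ss (a : G) {s t : Set G} (h : s ⊂ t) : a • s ⊂ a • t :=
  ⟨Set.smul_set_mono h.1, fun h' => h.2 (Set.smul_set_subset_smul_set_iff.1 h')⟩

theorem smul_HS (g x : G) (y : L) : g • HS T x y = HS T (g * x) y := by
  ext z
  rw [Set.mem_smul_set_iff_inv_smul_mem]
  simp [HS, mul_assoc]

theorem HS_eq {x x' : G} {y y' : L} (h : HS T x y = HS T x' y') :
    y' = y ∧ x⁻¹ * x' ∈ sub T (lk T y) := by
  have h1 : x' ∉ HS T x y := by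
    rw [h]
    simpa [HS] using not_fst_one (T := T) y'
  have h2 : x' * T.val y' ∈ HS T x y := by
    rw [h]
    simpa [HS] using fst_val (T := T) y'
  apply cross h1
  rw [mul_assoc]
  exact h2

theorem HS_lk (x : G) {y : L} {u : G} (hu : u ∈ sub T (lk T y)) : HS T (x * u) y = HS T x y := by
  ext z
  simp only [HS, Set.mem_setOf_eq, mul_inv_rev, mul_assoc]
  exact fst_left (inv_mem hu) _

theorem pre_finite (z : G) (w : List L) : (Pre T z w).Finite := by
  induction w with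
  | nil => exact Set.finite_empty
  | cons s w ih => exact ih.insert _

theorem mem_pre {z x : G} {y : L} {w : List L} (h1 : z ∉ HS T x y) (h2 : z * ev T w ∈ HS T x y) :
    HS T x y ∈ Pre T z w := by
  induction w with
  | nil => exact absurd (by simpa [ev] using h2) h1
  | cons s w ih =>
    by_cases h : z * ev T w ∈ HS T x y
    · exact Or.inr (ih h)
    · left
      have h3 : Fst T y (x⁻¹ * (z * ev T w) * T.val s) := by
        simpa [HS, ev, mul_assoc] using h2
      obtain ⟨rfl, h4⟩ := cross h h3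
      rw [← HS_lk x h4, mul_inv_cancel_left]

theorem pre_split {z : G} {w : List L} {h : Set G} (hh : h ∈ Pre T z w) :
    ∃ w1 s w2, w = w1 ++ s :: w2 ∧ h = HS T (z * ev T w2) s := by
  induction w with
  | nil => exact hh.elim
  | cons s w ih =>
    rcases hh with rfl | hh
    · exact ⟨[], s, w, rfl, rfl⟩
    · obtain ⟨w1, t, w2, rfl, rfl⟩ := ih hh
      exact ⟨s :: w1, t, w2, rfl, rfl⟩

theorem sep_finite (z z' : G) :
    {h : Set G | (∃ x y, h = HS T x y) ∧ z ∉ h ∧ z' ∈ h}.Finite := by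
  refine (pre_finite (T := T) z (wd T (z⁻¹ * z'))).subset ?_
  rintro _ ⟨⟨x, y, rfl⟩, h1, h2⟩
  exact mem_pre h1 (by rwa [ev_wd, mul_inv_cancel_left])

theorem Hg.anti {g : G} {h : Set G} (hh : Hg T g h) : StrictAnti fun m : ℤ => g ^ m • h := by
  apply strictAnti_int_of_succ_lt
  intro m
  rw [zpow_add_one, mul_smul]
  exact smul_ss _ hh.2

theorem Hg.hs {g : G} {h : Set G} (hh : Hg T g h) (u : G) : ∃ x y, u • h = HS T x y := by
  obtain ⟨⟨x, y, rfl⟩, -⟩ := hh
  exact ⟨_, _, smul_HS _ _ _⟩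

theorem Hg.comm {g u : G} {h : Set G} (hh : Hg T g h) (hu : Commute u g) : Hg T g (u • h) := by
  refine ⟨hh.hs u, ?_⟩
  rw [← mul_smul, ← hu.eq, mul_smul]
  exact smul_ss _ hh.2

theorem Hg.orbit {g : G} {h : Set G} (hh : Hg T g h) :
    ∃ m : ℤ, g ^ m • h ∈ Pre T 1 (wd T g) := by
  obtain ⟨w, hw1, hw2⟩ := Set.exists_of_ssubset hh.2
  have ha := hh.anti
  have e1 : ∃ k : ℤ, (1 : G) ∉ g ^ k • h := by
    by_contra hc
    push Not at hc
    apply (sep_finite (T := T) w 1).not_infinite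
    refine Set.infinite_of_injective_forall_mem (f := fun n : ℕ => g ^ ((n : ℤ) + 1) • h) ?_ ?_
    · intro a b hab
      have := ha.injective hab
      omega
    · intro n
      refine ⟨hh.hs _, fun h1 => hw2 ?_, hc _⟩
      have := ha.antitone (show (1 : ℤ) ≤ n + 1 by omega) h1
      simpa using this
  have e2 : ∃ k : ℤ, (1 : G) ∈ g ^ k • h := by
    by_contra hc
    push Not at hc
    apply (sep_finite (T := T) 1 w).not_infinite
    refine Set.infinite_of_injective_forall_mem (f := fun n : ℕ => g ^ (-(n : ℤ)) • h) ?_ ?_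
    · intro a b hab
      have := ha.injective hab
      omega
    · intro n
      refine ⟨hh.hs _, hc _, ?_⟩
      exact ha.antitone (show -(n : ℤ) ≤ 0 by omega) (by simpa using hw1)
  obtain ⟨k, hk⟩ := e1
  obtain ⟨m, hm1, hm2⟩ := Int.exists_greatest_of_bdd (P := fun m : ℤ => (1 : G) ∈ g ^ m • h)
    ⟨k, fun z hz => by
      by_contra hc
      exact hk (ha.antitone (show k ≤ z by omega) hz)⟩ e2
  refine ⟨1 + m, ?_⟩
  obtain ⟨x, y, hxy⟩ := hh.hs (g ^ (1 + m))
  rw [hxy]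
  apply mem_pre
  · rw [← hxy]
    intro h1
    have := hm2 _ h1
    omega
  · rw [← hxy, ev_wd, one_mul, zpow_one_add, mul_smul]
    have := Set.smul_mem_smul_set (a := g) hm1
    simpa using this

omit [DecidableEq L] in
theorem fix_mul {g u : G} {h : Set G} (hu : Commute u g) {m : ℤ} (h1 : u • h = g ^ m • h)
    (k : ℕ) : u ^ k • h = g ^ (m * k) • h := by
  induction k with
  | zero => simp
  | succ k ih =>
    rw [pow_succ', mul_smul, ih, ← mul_smul, (hu.zpow_right _).eq, mul_smul, h1, ← mul_smul,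
      ← zpow_add]
    congr 2
    push_cast
    ring

theorem Hg.pig {g u : G} {h : Set G} (hh : Hg T g h) (hu : Commute u g) :
    ∃ d : ℕ, 0 < d ∧ ∃ m : ℤ, u ^ d • h = g ^ m • h := by
  have h1 : ∀ n : ℕ, ∃ m : ℤ, g ^ m • u ^ n • h ∈ Pre T 1 (wd T g) :=
    fun n => (hh.comm (hu.pow_left n)).orbit
  choose m hm using h1
  obtain ⟨a, b, hab, h2⟩ := Set.Finite.exists_lt_map_eq_of_forall_mem
    (f := fun n : ℕ => g ^ m n • u ^ n • h) hm (pre_finite _ _)
  refine ⟨b - a, by omega, m a - m b, ?_⟩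
  have h3 : u ^ b = u ^ a * u ^ (b - a) := by
    rw [← pow_add]
    congr 1
    omega
  have h4 : ∀ (n : ℤ) (k : Set G), g ^ n • u ^ a • k = u ^ a • g ^ n • k := by
    intro n k
    rw [← mul_smul, ← ((hu.pow_left a).zpow_right n).eq, mul_smul]
  rw [h3, mul_smul, h4, h4, smul_left_cancel_iff] at h2
  rw [sub_eq_neg_add, zpow_add, mul_smul, h2, ← mul_smul, ← mul_smul, ← zpow_add]
  simp

theorem pig_all {g u : G} (hu : Commute u g) {F : Set (Set G)} (hF : F.Finite)
    (h1 : ∀ h ∈ F, Hg T g h) : ∃ d : ℕ, 0 < d ∧ ∀ h ∈ F, ∃ m : ℤ, u ^ d • h = g ^ m • h := by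
  induction F, hF using Set.Finite.induction_on with
  | empty => exact ⟨1, one_pos, by simp⟩
  | @insert a F _ _ ih =>
    obtain ⟨d, hd, h2⟩ := ih fun h hh => h1 h (Or.inr hh)
    obtain ⟨e, he, m, h3⟩ := (h1 a (Or.inl rfl)).pig hu
    refine ⟨d * e, Nat.mul_pos hd he, ?_⟩
    rintro h (rfl | hh)
    · rw [mul_comm, pow_mul]
      exact ⟨_, fix_mul (hu.pow_left e) h3 d⟩
    · obtain ⟨n, h4⟩ := h2 h hh
      rw [pow_mul]
      exact ⟨_, fix_mul (hu.pow_left d) h4 e⟩

theorem hg_fst {g : G} (h1 : CM T g) (h2 : Good T g) {y : L} (hy : Fst T y g) :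
    Hg T g (HS T 1 y) := by
  have h3 : ¬ Fst T y g⁻¹ := by
    intro h
    rw [fst_iff, inv_inv] at h
    have h4 := len_down T h
    by_cases h5 : Fst T y (g * T.val y)
    · have h6 := fst_len h5
      have h7 := h1 (T.val y)⁻¹
      rw [inv_inv, mul_assoc] at h7
      omega
    · obtain ⟨h6, h7⟩ := cross' hy h5
      apply h2 1 y _ h6 h7
      have h8 : Commute (T.val y) (g * T.val y) :=
        sub_commute (S := {y}) (fun s hs t ht => hs ▸ ht) (val_mem rfl) h7
      have h9 : (T.val y)⁻¹ = T.val y := by rw [← T.val_ι, h6]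
      rw [h8.eq, mul_assoc, mul_assoc]
      nth_rewrite 1 [← h9]
      simp
  refine ⟨⟨_, _, rfl⟩, ?_, fun h => ?_⟩
  · rintro _ ⟨z, hz, rfl⟩
    have := nest hy h3 (z := z) (by simpa [HS] using hz)
    simpa [HS] using this
  · have h4 : g ∈ HS T 1 y := by simpa [HS] using hy
    have h5 := h h4
    rw [smul_HS] at h5
    exact not_fst_one (T := T) y (by simpa [HS] using h5)

theorem Hg.conj {g : G} {h : Set G} (x : G) (hh : Hg T (x⁻¹ * g * x) h) : Hg T g (x • h) := by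
  refine ⟨hh.hs x, ?_⟩
  have := smul_ss x hh.2
  rwa [← mul_smul, ← mul_assoc, mul_inv_cancel_left, mul_smul] at this

theorem hg_pre {g : G} (h1 : CM T g) (h2 : Good T g) {h : Set G} (hh : h ∈ Pre T 1 (wd T g)) :
    Hg T g h := by
  obtain ⟨w1, s, w2, hw, rfl⟩ := pre_split hh
  have e1 : g = ev T w2 * T.val s * ev T w1 := by
    rw [← ev_wd T g, hw, ev_append, ev]
  have e2 : (ev T w2)⁻¹ * g * ev T w2 = ev T (w2 ++ w1 ++ [s]) := by
    rw [e1]
    simp [ev_append, ev, mul_assoc]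
  have e3 : len T g = (w2 ++ w1 ++ [s]).length := by
    simp [len, hw]
    omega
  have e4 : len T (ev T (w2 ++ w1 ++ [s])) = len T g := by
    have a1 := len_ev_le (T := T) (w2 ++ w1 ++ [s])
    have a2 := h1 (ev T w2)⁻¹
    rw [inv_inv, e2] at a2
    omega
  have e5 : CM T ((ev T w2)⁻¹ * g * ev T w2) := by
    intro c
    have := h1 (c * (ev T w2)⁻¹)
    rw [e2, e4, ← e2]
    simpa [mul_assoc] using this
  have e6 : Fst T s ((ev T w2)⁻¹ * g * ev T w2) := by
    rw [e2]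
    apply (wd_ev (red_of_len (e4.trans e3))).symm.reverse.ini
    rw [List.reverse_append]
    exact Or.inl rfl
  have e7 := h2.conj (ev T w2)⁻¹
  rw [inv_inv] at e7
  have := (hg_fst e5 e7 e6).conj
  rwa [smul_HS, mul_one, ← one_mul (ev T w2)] at this

theorem fix_pre {c : G} {w : List L} (h : ∀ k ∈ Pre T 1 w, c • k = k) :
    c ∈ sub T {t | ∀ s ∈ w, T.C s t} := by
  induction w with
  | nil => simpa using mem_univ_sub (T := T) c
  | cons s w ih =>
    have h1 := ih fun k hk => h k (Or.inr hk)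
    have h2 := h _ (Or.inl rfl)
    rw [smul_HS, one_mul] at h2
    have h3 := (HS_eq h2.symm).2
    have h4 : Commute (ev T w) c :=
      sub_commute (S := {s | s ∈ w}) (U := {t | ∀ s ∈ w, T.C s t}) (fun s hs t ht => ht s hs) (ev_mem fun x hx => hx) h1
    rw [← h4.eq, inv_mul_cancel_left] at h3
    refine sub_mono ?_ (mem_inter (lk_ic T s) h3 h1)
    rintro t ⟨ht1, ht2⟩ s' hs'
    rcases List.mem_cons.1 hs' with rfl | hs'
    · exact ht1
    · exact ht2 s' hs'

theorem exists_cm {S : Set L} (hS : IC T S) {g : G} (hg : g ∈ sub T S) :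
    ∃ c ∈ sub T S, CM T (c * g * c⁻¹) := by
  obtain ⟨c, hc⟩ := exists_minimalFor_of_wellFoundedLT (fun _ : G => True)
    (fun c : G => len T (c * g * c⁻¹)) ⟨1, trivial⟩
  refine ⟨ret T S c, ret_mem' hS c, fun d => ?_⟩
  have h1 := len_ret_le hS (c * g * c⁻¹)
  rw [map_mul, map_mul, map_inv, ret_of_mem hS hg] at h1
  have h2 := hc.le (j := d * ret T S c) trivial
  refine h1.trans (h2.trans (le_of_eq ?_))
  simp [mul_assoc]

omit [DecidableEq L] in
theorem comm_conj {u g : G} (h : Commute u g) (c : G) : Commute (c * u * c⁻¹) (c * g * c⁻¹) := by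
  have := h.map (MulAut.conj c)
  simpa using this

theorem cent_S1 {g u v : G} (h2 : Good T g) (hu : Commute u g) (hv : Commute v g) :
    ∃ (c : G) (N : ℕ) (S : Set L), 0 < N ∧ c * g * c⁻¹ ∈ sub T S ∧
      c * (u ^ N * v ^ N * (u ^ N)⁻¹ * (v ^ N)⁻¹) * c⁻¹ ∈ sub T {t | ∀ s ∈ S, T.C s t} := by
  obtain ⟨c, -, hc⟩ := exists_cm (T := T) (S := Set.univ) (fun _ _ => trivial) (mem_univ_sub g)
  have hu' := comm_conj hu c
  have hv' := comm_conj hv c
  have h3 := fun h hh => hg_pre hc (h2.conj c) (h := h) hh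
  obtain ⟨d, hd, h4⟩ := pig_all hu' (pre_finite _ _) h3
  obtain ⟨e, he, h5⟩ := pig_all hv' (pre_finite _ _) h3
  refine ⟨c, d * e, {s | s ∈ wd T (c * g * c⁻¹)}, Nat.mul_pos hd he, ?_, ?_⟩
  · have := ev_mem (T := T) (S := {s | s ∈ wd T (c * g * c⁻¹)}) (w := wd T (c * g * c⁻¹))
      fun x hx => hx
    rwa [ev_wd] at this
  · apply fix_pre
    intro k hk
    obtain ⟨m, hm⟩ := h4 k hk
    obtain ⟨n, hn⟩ := h5 k hk
    have a1 := fix_mul (hu'.pow_left d) hm e
    have a2 := fix_mul (hv'.pow_left e) hn d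
    rw [← pow_mul] at a1 a2
    rw [mul_comm e d] at a2
    have b1 := hu'.pow_left (d * e)
    have b2 := hv'.pow_left (d * e)
    have e0 : c * (u ^ (d * e) * v ^ (d * e) * (u ^ (d * e))⁻¹ * (v ^ (d * e))⁻¹) * c⁻¹ =
        (c * u * c⁻¹) ^ (d * e) * (c * v * c⁻¹) ^ (d * e) * ((c * u * c⁻¹) ^ (d * e))⁻¹ *
          ((c * v * c⁻¹) ^ (d * e))⁻¹ := by
      simp only [conj_pow]
      group
    rw [e0]
    generalize (c * u * c⁻¹) ^ (d * e) = U at *
    generalize (c * v * c⁻¹) ^ (d * e) = V at *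
    generalize c * g * c⁻¹ = g' at *
    generalize m * (e : ℤ) = M at *
    generalize n * (d : ℤ) = M' at *
    have c1 : U⁻¹ • k = g' ^ (-M) • k := by
      rw [inv_smul_eq_iff, ← mul_smul, (b1.zpow_right _).eq, mul_smul, a1, ← mul_smul, ← zpow_add]
      simp
    have c2 : V⁻¹ • k = g' ^ (-M') • k := by
      rw [inv_smul_eq_iff, ← mul_smul, (b2.zpow_right _).eq, mul_smul, a2, ← mul_smul, ← zpow_add]
      simp
    have sw : ∀ (W : G) (a b : ℤ), Commute W g' → W • k = g' ^ a • k →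
        W • g' ^ b • k = g' ^ (b + a) • k := by
      intro W a b h1 h2
      rw [← mul_smul, (h1.zpow_right _).eq, mul_smul, h2, ← mul_smul, ← zpow_add]
    rw [mul_smul, mul_smul, mul_smul, c2, sw _ _ _ b1.inv_left c1, sw _ _ _ b2 a2, sw _ _ _ b1 a1]
    simp

theorem cent_aux {S : Set L} (hS : IC T S) {g : G} (hg : g ∈ sub T S) (h1 : g ≠ 1)
    (h2 : Good T g) : ∃ c ∈ sub T S, ∃ y ∈ S, Hg T (c * g * c⁻¹) (HS T 1 y) := by
  obtain ⟨c, hc, h3⟩ := exists_cm hS hg
  have h4 : c * g * c⁻¹ ≠ 1 := by simpa using h1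
  obtain ⟨y, hy⟩ := exists_fst T h4
  exact ⟨c, hc, y, fst_mem hS (mul_mem (mul_mem hc hg) (inv_mem hc)) hy,
    hg_fst h3 (h2.conj c) hy⟩

theorem cent_S2 {S : Set L} (hS : IC T S) {g u : G} (hg : g ∈ sub T S) (h1 : g ≠ 1)
    (h2 : Good T g) (hu : Commute u g) : ∃ y ∈ S, u ∈ sub T (S ∪ lk T y) := by
  obtain ⟨c, hc, y, hy, h3⟩ := cent_aux hS hg h1 h2
  refine ⟨y, hy, ?_⟩
  have hg' : c * g * c⁻¹ ∈ sub T S := mul_mem (mul_mem hc hg) (inv_mem hc)
  obtain ⟨m, hm⟩ := (h3.comm (comm_conj hu c)).orbit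
  obtain ⟨w1, s, w2, hw, h4⟩ := pre_split hm
  rw [smul_HS, smul_HS] at h4
  obtain ⟨rfl, h5⟩ := HS_eq h4.symm
  have h6 : ev T w2 ∈ sub T S :=
    ev_mem fun x hx => wd_letters hS hg' x (by rw [hw]; simp [hx])
  have l1 : sub T S ≤ sub T (S ∪ lk T y) := sub_mono Set.subset_union_left
  have h7 := mul_mem (mul_mem (l1 (inv_mem hc)) (mul_mem (l1 (inv_mem (zpow_mem hg' m)))
    (mul_mem (l1 h6) (sub_mono Set.subset_union_right h5)))) (l1 hc)
  convert h7 using 1
  group

theorem cent_S3 {S : Set L} (hS : IC T S) {g v : G} (hg : g ∈ sub T S) (h1 : g ≠ 1)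
    (h2 : Good T g) (hv : Commute v g) : ∃ c ∈ sub T S, ∃ y ∈ S, ∃ (N : ℕ) (m : ℤ), 0 < N ∧
      c * ((g ^ m)⁻¹ * v ^ N) * c⁻¹ ∈ sub T (lk T y) := by
  obtain ⟨c, hc, y, hy, h3⟩ := cent_aux hS hg h1 h2
  obtain ⟨d, hd, m, h4⟩ := h3.pig (comm_conj hv c)
  refine ⟨c, hc, y, hy, d, m, hd, ?_⟩
  rw [smul_HS, smul_HS] at h4
  have h5 := (HS_eq h4.symm).2
  convert h5 using 1
  simp only [conj_pow, conj_zpow]
  group

end Pool.Agent.H728Z.RC
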