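import Pool.Agent.H728Z.RC.ASide
import Pool.Agent.H390Z.RC.Count
import Pool.Agent.H325Z.RC.DJ
import Pool.Agent.H615Z.RC.Tree

/-! Assembly. -/

set_option autoImplicit false

namespace Pool.Agent.H728Z.RC

theorem cg_sq {V : Type} (Γ : SimpleGraph V) (x : V) :
    (PresentedGroup.of x : CG Γ) * PresentedGroup.of x = 1 := by
  have h1 : PresentedGroup.mk (cRel Γ) (FreeGroup.of x * FreeGroup.of x) = 1 :=
    PresentedGroup.one_of_mem (Or.inl ⟨x, rfl⟩)
  rw [map_mul] at h1
  exact h1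

theorem comm_of_sq {G : Type} [Group G] {s t : G} (hs : s * s = 1) (ht : t * t = 1)
    (h : (s * t) ^ 2 = 1) : Commute s t := by
  have e1 : s⁻¹ = s := inv_eq_of_mul_eq_one_right hs
  have e2 : t⁻¹ = t := inv_eq_of_mul_eq_one_right ht
  rw [sq] at h
  have := inv_eq_of_mul_eq_one_right h
  rw [mul_inv_rev, e1, e2] at this
  exact this.symm

/-- Coxeter groups as letter groups -/
def TGc {V V' : Type} (Γ : SimpleGraph V') (e : V ≃ V') : TG V (CG Γ) where
  ι x := x
  C x y := Γ.Adj (e x) (e y)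
  val x := PresentedGroup.of (e x)
  ι_ι _ := rfl
  symm h := h.symm
  irrefl _ := Γ.irrefl
  C_ι h := h
  val_ι x := (inv_eq_of_mul_eq_one_right (cg_sq Γ _)).symm
  val_comm x y h := by
    refine comm_of_sq (cg_sq Γ _) (cg_sq Γ _) ?_
    have h1 : PresentedGroup.mk (cRel Γ) ((FreeGroup.of (e x) * FreeGroup.of (e y)) ^ 2) = 1 :=
      PresentedGroup.one_of_mem (Or.inr ⟨_, _, h, rfl⟩)
    rw [map_pow, map_mul] at h1
    exact h1
  gen := by
    rw [← PresentedGroup.closure_range_of (cRel Γ)]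
    congr 1
    exact e.surjective.range_comp PresentedGroup.of
  lift H _ f h1 h2 := by
    have h3 : ∀ x, f x * f x = 1 := fun x => by
      nth_rewrite 1 [h1 x]
      rw [inv_mul_cancel]
    refine ⟨PresentedGroup.toGroup (f := fun v => f (e.symm v)) ?_, fun x => ?_⟩
    · rintro _ (⟨a, rfl⟩ | ⟨a, b, h, rfl⟩)
      · simp [h3]
      · have := h2 (e.symm a) (e.symm b) (by simpa using h)
        simp only [map_pow, map_mul, FreeGroup.lift_apply_of]
        rw [this.mul_pow, sq, sq, h3, h3, one_mul]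
    · rw [PresentedGroup.toGroup.of]
      simp

/-- Artin groups as letter groups -/
def TGa {V : Type} (Λ : SimpleGraph V) : TG (V × Bool) (AG Λ) where
  ι x := (x.1, !x.2)
  C x y := Λ.Adj x.1 y.1
  val x := if x.2 then PresentedGroup.of x.1 else (PresentedGroup.of x.1)⁻¹
  ι_ι x := by simp
  symm h := h.symm
  irrefl _ := Λ.irrefl
  C_ι h := h
  val_ι x := by
    obtain ⟨v, b⟩ := x
    cases b <;> simp
  val_comm x y h := by
    obtain ⟨u, b⟩ := x
    obtain ⟨v, c⟩ := y
    have h1 : PresentedGroup.mk (aRel Λ)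
        (FreeGroup.of u * FreeGroup.of v * (FreeGroup.of u)⁻¹ * (FreeGroup.of v)⁻¹) = 1 :=
      PresentedGroup.one_of_mem ⟨u, v, h, rfl⟩
    simp only [map_mul, map_inv] at h1
    rw [mul_inv_eq_one, mul_inv_eq_iff_eq_mul] at h1
    have h2 : Commute (PresentedGroup.of u : AG Λ) (PresentedGroup.of v) := h1
    cases b <;> cases c <;> simp [h2]
  gen := by
    rw [eq_top_iff, ← PresentedGroup.closure_range_of (aRel Λ)]
    apply Subgroup.closure_mono
    rintro _ ⟨v, rfl⟩
    exact ⟨(v, true), rfl⟩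
  lift H _ f h1 h2 := by
    refine ⟨PresentedGroup.toGroup (f := fun v => f (v, true)) ?_, fun x => ?_⟩
    · rintro _ ⟨a, b, h, rfl⟩
      simp only [map_mul, map_inv, FreeGroup.lift_apply_of]
      rw [(h2 (a, true) (b, true) h).eq]
      group
    · obtain ⟨v, b⟩ := x
      cases b
      · have := h1 (v, true)
        simp only [Bool.not_true] at this
        simp [this]
      · simp

theorem pingPong : PingPong := by
  have w : IsW (TGc GW (Equiv.refl _)) := ⟨fun _ => rfl, fun _ _ => Iff.rfl⟩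
  have e1 : ∀ j : Fin 5, sub (TGc GW (Equiv.refl _)) (lk (TGc GW (Equiv.refl _)) (j, 2)) = DW j := by
    intro j
    have : ∀ (j : Fin 5) (x : VW), GW.Adj (j, 2) x ↔ x.1 = j ∧ x.2 ≠ 2 := by decide
    have e : lk (TGc GW (Equiv.refl _)) (j, 2) = {x | x.1 = j ∧ x.2 ≠ 2} := Set.ext (this j)
    rw [e]
    rfl
  have e2 : ∀ j, DW j ≤ BW := fun j =>
    Subgroup.closure_mono (Set.image_mono fun x hx => hx.2)
  have n1 : ∀ j : Fin 5, ∀ β ∈ BW, ¬ Fst (TGc GW (Equiv.refl _)) (j, 2) β := by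
    intro j β hβ h
    exact fst_mem (T := TGc GW (Equiv.refl _)) (S := {x | x.2 ≠ 2}) (w.ic _) hβ h rfl
  have up : ∀ (j : Fin 5) (g : CG GW), ¬ Fst (TGc GW (Equiv.refl _)) (j, 2) g →
      Fst (TGc GW (Equiv.refl _)) (j, 2) (gw (j, 2) * g) := by
    intro j g h
    rw [fst_iff] at h ⊢
    have := desc_up (TGc GW (Equiv.refl _)) h
    have e : (gw (j, 2))⁻¹ = gw (j, 2) := inv_eq_of_mul_eq_one_right (cg_sq GW (j, 2))
    rw [mul_inv_rev, e]
    exact this
  refine ⟨fun j => {z | Fst (TGc GW (Equiv.refl _)) (j, 2) z}, n1,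
    fun j β hβ => up j β (n1 j β hβ), fun j j' z hz β hβ hn => ?_⟩
  rw [mul_assoc]
  apply up
  revert hz
  induction z using G_ind (TGc GW (Equiv.refl _)) with
  | h1 => exact fun h => absurd h (not_fst_one _)
  | h2 z s ih =>
    intro hz h
    rw [← mul_assoc] at h
    by_cases h1 : Fst (TGc GW (Equiv.refl _)) (j', 2) z
    · have h2 := (cross (ih h1) h).2
      rw [e1] at h2
      have h3 := mul_mem (inv_mem hβ) (e2 j h2)
      rw [inv_mul_cancel_left] at h3
      exact n1 j' z h3 h1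
    · obtain ⟨h2, h3⟩ := cross h1 hz
      rw [e1] at h3
      obtain ⟨h4, h5⟩ := cross (n1 j _ (mul_mem hβ (e2 j' h3))) h
      rw [e1] at h5
      have h6 : j = j' := (congrArg Prod.fst (h4.symm.trans h2))
      subst h6
      have h7 := mul_mem h5 (inv_mem h3)
      rw [mul_inv_cancel_right] at h7
      exact hn ⟨rfl, h7⟩

theorem closure_sub {L G J : Type} [Group G] {T : TG L G} {S : Set L} (t : J → sub T S)
    (h : ∀ x ∈ S, ∃ j, T.val x = t j ∨ T.val x = (t j : G)⁻¹) :
    Subgroup.closure (Set.range t) = ⊤ := by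
  rw [eq_top_iff]
  rintro ⟨g, hg⟩ -
  induction hg using Subgroup.closure_induction with
  | one => exact one_mem _
  | mul a b _ _ h1 h2 => exact mul_mem h1 h2
  | inv a _ h1 => exact inv_mem h1
  | mem a ha =>
    obtain ⟨x, hx, rfl⟩ := ha
    obtain ⟨j, e | e⟩ := h x hx
    · exact Subgroup.subset_closure ⟨j, Subtype.ext e.symm⟩
    · have := inv_mem (Subgroup.subset_closure (k := Set.range t) ⟨j, rfl⟩)
      convert this using 1
      exact Subtype.ext e

/-- the five vertices of a link -/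
def lkv (i j : Fin 5) : VW := ![(i + 1, 0), (i + 1, 1), (i + 4, 0), (i + 4, 1), (i, 2)] j

theorem com_false {V G₁ G₂ H : Type} [Group G₁] [Group G₂] [Group H] [DecidableEq V] [Finite V]
    {Λ : SimpleGraph V} {T₁ : TG VW G₁} {T₂ : TG (V × Bool) G₂} {w : IsW T₁} {θ₁ : H →* G₁}
    {θ₂ : H →* G₂} (c : Com w θ₁ θ₂) (a : IsA Λ T₂) [θ₂.range.Normal] [θ₂.range.FiniteIndex] :
    False := by
  classical
  refine (c.ctx a).main ?_
  intro i P hP H' _ φ ψ β h1 h2 h3
  have k1 : ∀ i j : Fin 5, GW.Adj (i, 0) (lkv i j) := by decide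
  have k2 : ∀ (i : Fin 5) (x : VW), GW.Adj (i, 0) x → ∃ j, lkv i j = x := by decide
  have k3 : ∀ i j k : Fin 5, lkv i j = lkv i k → j = k := by decide
  refine count_thm _ _ {q : V // Λ.Adj P q}
    (fun q => ⟨T₂.val (q.1, true), val_mem q.2⟩)
    (fun j => ⟨T₁.val (lkv i j), val_mem (k1 i j)⟩) ?_ ?_ ?_ ?_ ?_ H' φ ψ β h1 h2 ?_
  · apply closure_sub
    rintro ⟨v, b⟩ hx
    refine ⟨⟨v, hx⟩, ?_⟩
    cases b
    · exact Or.inr (a.val_false v)
    · exact Or.inl rfl
  · intro M _ f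
    obtain ⟨ρ, hρ⟩ := T₂.lift M
      (fun x => if h : Λ.Adj P x.1 then (if x.2 then f ⟨_, h⟩ else (f ⟨_, h⟩)⁻¹) else 1)
      (by
        rintro ⟨v, b⟩
        rw [a.hι]
        cases b <;> by_cases h : Λ.Adj P v <;> simp [h])
      (by
        intro x y hxy
        by_cases hx : Λ.Adj P x.1
        · by_cases hy : Λ.Adj P y.1
          · exact absurd hxy (hP x hx y hy)
          · simp only [dif_neg hy]
            exact Commute.one_right _
        · simp only [dif_neg hx]
          exact Commute.one_left _)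
    exact ⟨ρ.comp (Subgroup.subtype _), fun q => by simp [hρ, q.2]⟩
  · apply closure_sub
    intro x hx
    obtain ⟨j, rfl⟩ := k2 i x hx
    exact ⟨j, Or.inl rfl⟩
  · exact fun j => Subtype.ext (w.sq _)
  · intro M _ f hf
    obtain ⟨ρ, hρ⟩ := T₁.lift M (fun x => if h : ∃ j, lkv i j = x then f h.choose else 1)
      (by
        intro x
        rw [w.hι]
        split_ifs
        · exact (inv_eq_of_mul_eq_one_right (hf _)).symm
        · simp)
      (by
        intro x y hxy
        by_cases hx : ∃ j, lkv i j = x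
        · by_cases hy : ∃ j, lkv i j = y
          · obtain ⟨j, rfl⟩ := hx
            obtain ⟨k, rfl⟩ := hy
            exact absurd hxy (w.tri i _ (k1 i j) _ (k1 i k))
          · simp only [dif_neg hy]
            exact Commute.one_right _
        · simp only [dif_neg hx]
          exact Commute.one_left _)
    refine ⟨ρ.comp (Subgroup.subtype _), fun j => ?_⟩
    have hj : ∃ k, lkv i k = lkv i j := ⟨j, rfl⟩
    simp only [MonoidHom.comp_apply, Subgroup.subtype_apply, hρ, dif_pos hj]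
    rw [k3 i _ _ hj.choose_spec]
  · intro h g j e
    obtain ⟨h0, d, e1⟩ := h3 h
    have m1 : d⁻¹ * θ₁ h0 * d ∈ w.KW := by simpa using w.KW_conj (c.hK h0) d⁻¹
    have m2 := w.mem_KW.1 (w.ret_KW (i := i) m1) (lkv i j)
    rw [← e1, e] at m2
    simp only [Subgroup.coe_mul, Subgroup.coe_inv, map_mul, map_inv, mul_inv_cancel_comm,
      w.pr_val] at m2
    rw [if_pos ⟨rfl, Iff.rfl⟩] at m2
    exact absurd m2 (by decide)

theorem noncomm {V G₁ G₂ : Type} [Group G₁] [Group G₂] [DecidableEq V] [Finite V]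
    {Λ : SimpleGraph V} {T₁ : TG VW G₁} {T₂ : TG (V × Bool) G₂} (w : IsW T₁) (a : IsA Λ T₂)
    (H₁ : Subgroup G₁) (H₂ : Subgroup G₂) (i₁ : H₁.index ≠ 0) (i₂ : H₂.index ≠ 0)
    (e : H₁ ≃* H₂) : False := by
  let f : H₂ →* G₁ := H₁.subtype.comp e.symm.toMonoidHom
  let M : Subgroup G₂ := (w.KW.comap f).map H₂.subtype
  have hM : M.FiniteIndex := by
    constructor
    rw [Subgroup.index_map_subtype, Subgroup.index_comap]
    have := w.KW_fi
    exact mul_ne_zero (Subgroup.FiniteIndex.index_ne_zero (H := w.KW.subgroupOf f.range)) i₂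
  have le : M.normalCore ≤ H₂ := M.normalCore_le.trans (Subgroup.map_subtype_le _)
  have c : Com w (f.comp (Subgroup.inclusion le)) M.normalCore.subtype := by
    refine ⟨?_, Subtype.val_injective, ?_, ?_, ?_⟩
    · exact (Subtype.val_injective.comp e.symm.injective).comp (Subgroup.inclusion_injective le)
    · intro g
      obtain ⟨n, hn, -, h1⟩ := Subgroup.exists_pow_mem_of_index_ne_zero i₁ g
      obtain ⟨m, hm, -, h2⟩ := Subgroup.exists_pow_mem_of_index_ne_zero
        (Subgroup.FiniteIndex.index_ne_zero (H := M.normalCore)) (e ⟨_, h1⟩ : G₂)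
      refine ⟨n * m, Nat.mul_pos hn hm, ⟨_, h2⟩, ?_⟩
      have : Subgroup.inclusion le ⟨_, h2⟩ = e ⟨_, h1⟩ ^ m := rfl
      rw [MonoidHom.comp_apply, this, map_pow, pow_mul]
      simp [f]
    · intro g
      obtain ⟨m, hm, -, h2⟩ := Subgroup.exists_pow_mem_of_index_ne_zero
        (Subgroup.FiniteIndex.index_ne_zero (H := M.normalCore)) g
      exact ⟨m, hm, ⟨_, h2⟩, rfl⟩
    · intro h
      obtain ⟨k, hk, e1⟩ := M.normalCore_le h.2
      have : Subgroup.inclusion le h = k := Subtype.ext e1.symm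
      rw [MonoidHom.comp_apply, this]
      exact hk
  have n1 : M.normalCore.subtype.range.Normal := by
    rw [Subgroup.range_subtype]
    infer_instance
  have n2 : M.normalCore.subtype.range.FiniteIndex := by
    rw [Subgroup.range_subtype]
    infer_instance
  exact com_false c a

theorem final : ∃ (n : ℕ) (Γ : SimpleGraph (Fin n)),
    (∀ (m : ℕ) (Λ : SimpleGraph (Fin m)), ¬ ∃ (H₁ : Subgroup (CG Γ)) (H₂ : Subgroup (AG Λ)),
      H₁.index ≠ 0 ∧ H₂.index ≠ 0 ∧ Nonempty (H₁ ≃* H₂)) ∧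
    ∃ (m : ℕ) (Λ : SimpleGraph (Fin m)), QI (cRel Γ) (aRel Λ) := by
  refine ⟨_, GW.comap (finProdFinEquiv (m := 5) (n := 3)).symm, ?_, _, _,
    dj_thm (tree_thm pingPong)⟩
  rintro m Λ ⟨H₁, H₂, i₁, i₂, ⟨e⟩⟩
  refine noncomm (T₁ := TGc _ (finProdFinEquiv (m := 5) (n := 3))) (T₂ := TGa Λ) (Λ := Λ)
    ⟨fun _ => rfl, fun x y => ?_⟩ ⟨fun _ => rfl, fun _ _ => Iff.rfl⟩ H₁ H₂ i₁ i₂ e
  simp [TGc]

end Pool.Agent.H728Z.RC
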