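import Pool.Agent.H728Z.RC.NF

/-! Special subgroups, retractions and half-spaces. -/

set_option autoImplicit false

namespace Pool.Agent.H728Z.RC

variable {L G : Type} [Group G] (T : TG L G)

theorem ev_append (u v : List L) : ev T (u ++ v) = ev T v * ev T u := by
  induction u with
  | nil => simp [ev]
  | cons x u ih => simp [ev, ih, mul_assoc]

theorem ev_inv (w : List L) : ev T (w.map T.ι).reverse = (ev T w)⁻¹ := by
  induction w with
  | nil => simp [ev]
  | cons x w ih => simp [ev_append, ev, ih, T.val_ι]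

theorem ini_map (y : L) (w : List L) : ini T (T.ι y) (w.map T.ι) ↔ ini T y w := by
  induction w with
  | nil => simp [ini]
  | cons x w ih =>
    simp only [List.map_cons, ini, ih]
    constructor
    · rintro (h | ⟨h1, h2⟩)
      · left
        rw [← T.ι_ι x, h, T.ι_ι]
      · exact Or.inr ⟨T.symm (T.C_of_ι (T.symm (T.C_of_ι h1))), h2⟩
    · rintro (rfl | ⟨h1, h2⟩)
      · exact Or.inl rfl
      · exact Or.inr ⟨T.C_ι (T.C_ι' h1), h2⟩

theorem ini_append_or {y : L} {u v : List L} (h : ini T y (u ++ v)) :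
    ini T y u ∨ (ini T y v ∧ ∀ s ∈ u, T.C y s) := by
  induction u with
  | nil => exact Or.inr ⟨h, by simp⟩
  | cons x u ih =>
    rcases h with rfl | ⟨h1, h2⟩
    · exact Or.inl (Or.inl rfl)
    · rcases ih h2 with h3 | ⟨h3, h4⟩
      · exact Or.inl (Or.inr ⟨h1, h3⟩)
      · refine Or.inr ⟨h3, ?_⟩
        intro s hs
        rcases List.mem_cons.1 hs with rfl | hs
        · exact h1
        · exact h4 s hs

/-- special subgroup -/
def sub (S : Set L) : Subgroup G := Subgroup.closure (T.val '' S)

/-- closed under inversion of letters -/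
def IC (S : Set L) : Prop := ∀ y ∈ S, T.ι y ∈ S

/-- the link of a letter -/
def lk (y : L) : Set L := {s | T.C y s}

theorem lk_ic (y : L) : IC T (lk T y) := fun _ h => T.C_ι' h

theorem lk_ι (y : L) : lk T (T.ι y) = lk T y := by
  ext s
  exact ⟨fun h => T.C_of_ι h, fun h => T.C_ι h⟩

variable {T}

theorem IC.inter {S U : Set L} (h1 : IC T S) (h2 : IC T U) : IC T (S ∩ U) :=
  fun y h => ⟨h1 y h.1, h2 y h.2⟩

theorem IC.union {S U : Set L} (h1 : IC T S) (h2 : IC T U) : IC T (S ∪ U) :=
  fun y h => h.elim (fun h => Or.inl (h1 y h)) (fun h => Or.inr (h2 y h))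

theorem val_mem {S : Set L} {x : L} (h : x ∈ S) : T.val x ∈ sub T S :=
  Subgroup.subset_closure ⟨x, h, rfl⟩

theorem sub_mono {S U : Set L} (h : S ⊆ U) : sub T S ≤ sub T U :=
  Subgroup.closure_mono (Set.image_mono h)

theorem sub_empty {g : G} (h : g ∈ sub T ∅) : g = 1 := by
  simpa [sub] using h

theorem sub_ind {S : Set L} (hS : IC T S) {P : G → Prop} (h1 : P 1)
    (h2 : ∀ g x, g ∈ sub T S → x ∈ S → P g → P (g * T.val x)) {g : G} (hg : g ∈ sub T S) :
    P g := by
  induction hg using Subgroup.closure_induction_right with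
  | one => exact h1
  | mul_right g hg y hy ih =>
    obtain ⟨v, hv, rfl⟩ := hy
    exact h2 g v hg hv ih
  | mul_inv_cancel g hg y hy ih =>
    obtain ⟨v, hv, rfl⟩ := hy
    rw [← T.val_ι]
    exact h2 g _ hg (hS _ hv) ih

theorem ev_mem {S : Set L} {w : List L} (h : ∀ x ∈ w, x ∈ S) : ev T w ∈ sub T S := by
  induction w with
  | nil => exact (sub T S).one_mem
  | cons x w ih =>
    exact (sub T S).mul_mem (ih fun y hy => h y (by simp [hy])) (val_mem (h x (by simp)))

theorem sub_commute {S U : Set L} (h : ∀ s ∈ S, ∀ t ∈ U, T.C s t) {g k : G} (hg : g ∈ sub T S)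
    (hk : k ∈ sub T U) : Commute g k := by
  induction hg using Subgroup.closure_induction with
  | one => exact Commute.one_left _
  | mul a b _ _ h1 h2 => exact h1.mul_left h2
  | inv a _ h1 => exact h1.inv_left
  | mem a ha =>
    obtain ⟨s, hs, rfl⟩ := ha
    induction hk using Subgroup.closure_induction with
    | one => exact Commute.one_right _
    | mul a b _ _ h1 h2 => exact h1.mul_right h2
    | inv a _ h1 => exact h1.inv_right
    | mem a ha =>
      obtain ⟨t, ht, rfl⟩ := ha
      exact T.val_comm _ _ (h s hs t ht)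

theorem sub_split {S U : Set L} (h : ∀ s ∈ S, ∀ t ∈ U, T.C s t) {g : G}
    (hg : g ∈ sub T (S ∪ U)) : ∃ a ∈ sub T S, ∃ b ∈ sub T U, g = a * b := by
  induction hg using Subgroup.closure_induction with
  | one => exact ⟨1, one_mem _, 1, one_mem _, by simp⟩
  | mul x y _ _ h1 h2 =>
    obtain ⟨a, ha, b, hb, rfl⟩ := h1
    obtain ⟨c, hc, d, hd, rfl⟩ := h2
    refine ⟨a * c, mul_mem ha hc, b * d, mul_mem hb hd, ?_⟩
    have := (sub_commute h hc hb).eq
    simp only [mul_assoc]
    rw [← mul_assoc c, this, mul_assoc]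
  | inv x _ h1 =>
    obtain ⟨a, ha, b, hb, rfl⟩ := h1
    refine ⟨a⁻¹, inv_mem ha, b⁻¹, inv_mem hb, ?_⟩
    rw [(sub_commute h ha hb).eq, mul_inv_rev]
  | mem a ha =>
    obtain ⟨s, hs | hs, rfl⟩ := ha
    · exact ⟨_, val_mem hs, 1, one_mem _, by simp⟩
    · exact ⟨1, one_mem _, _, val_mem hs, by simp⟩

variable (T)

open Classical in
theorem exists_ret (S : Set L) :
    ∃ φ : G →* G, ∀ x, φ (T.val x) = if x ∈ S ∧ T.ι x ∈ S then T.val x else 1 := by
  apply T.lift
  · intro x
    rw [T.ι_ι]
    by_cases h : x ∈ S ∧ T.ι x ∈ S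
    · rw [if_pos h, if_pos h.symm, T.val_ι]
    · rw [if_neg h, if_neg (fun h' => h h'.symm), inv_one]
  · intro x y h
    split_ifs
    · exact T.val_comm _ _ h
    · exact Commute.one_right _
    · exact Commute.one_left _
    · exact Commute.one_left _

/-- the retraction onto a special subgroup -/
noncomputable def ret (S : Set L) : G →* G := (exists_ret T S).choose

variable {T}

theorem ret_pos {S : Set L} (hS : IC T S) {x : L} (h : x ∈ S) : ret T S (T.val x) = T.val x := by
  unfold ret
  rw [(exists_ret T S).choose_spec x, if_pos ⟨h, hS x h⟩]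

theorem ret_neg {S : Set L} {x : L} (h : x ∉ S) : ret T S (T.val x) = 1 := by
  unfold ret
  rw [(exists_ret T S).choose_spec x, if_neg (fun h' => h h'.1)]

theorem ret_of_mem {S : Set L} (hS : IC T S) {g : G} (hg : g ∈ sub T S) : ret T S g = g := by
  refine sub_ind hS (P := fun g => ret T S g = g) (map_one _) ?_ hg
  intro g x _ hx ih
  rw [map_mul, ih, ret_pos hS hx]

theorem ret_mem {S U : Set L} (hS : IC T S) {g : G} (hg : g ∈ sub T U) :
    ret T S g ∈ sub T (S ∩ U) := by
  induction hg using Subgroup.closure_induction with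
  | one => rw [map_one]; exact one_mem _
  | mul a b _ _ h1 h2 => rw [map_mul]; exact mul_mem h1 h2
  | inv a _ h1 => rw [map_inv]; exact inv_mem h1
  | mem a ha =>
    obtain ⟨s, hs, rfl⟩ := ha
    by_cases h : s ∈ S
    · rw [ret_pos hS h]
      exact val_mem ⟨h, hs⟩
    · rw [ret_neg h]
      exact one_mem _

theorem mem_univ_sub (g : G) : g ∈ sub T Set.univ := by
  unfold sub
  rw [Set.image_univ, T.gen]
  trivial

theorem ret_mem' {S : Set L} (hS : IC T S) (g : G) : ret T S g ∈ sub T S :=
  sub_mono Set.inter_subset_left (ret_mem hS (mem_univ_sub g))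

theorem mem_inter {S U : Set L} (hS : IC T S) {g : G} (h1 : g ∈ sub T S) (h2 : g ∈ sub T U) :
    g ∈ sub T (S ∩ U) := by
  have := ret_mem hS h2
  rwa [ret_of_mem hS h1] at this

theorem ret_kill {S U : Set L} (hS : IC T S) (h : ∀ x ∈ S, x ∉ U) {g : G} (hg : g ∈ sub T U) :
    ret T S g = 1 :=
  sub_empty (sub_mono (fun x hx => h x hx.1 hx.2) (ret_mem hS hg))

variable [DecidableEq L]

theorem wd_ev {w : List L} (h : Red T w) : Sw T (wd T (ev T w)) w := by
  induction w with
  | nil => rw [ev, wd_one]; exact Sw.refl _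
  | cons x w ih =>
    refine (wd_mul T _ x).trans (((ih h.2).act x).trans ?_)
    rw [act_neg h.1]
    exact Sw.refl _

theorem len_ev {w : List L} (h : Red T w) : len T (ev T w) = w.length :=
  (wd_ev h).perm.length_eq

theorem len_val_le (g : G) (x : L) : len T (g * T.val x) ≤ len T g + 1 := by
  by_cases h : Desc T (T.ι x) g
  · have := len_down T h
    omega
  · exact (len_up T h).le

theorem len_mul_ev_le (g : G) (w : List L) : len T (g * ev T w) ≤ len T g + w.length := by
  induction w with
  | nil => simp [ev]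
  | cons x w ih =>
    rw [ev, ← mul_assoc]
    have := len_val_le (T := T) (g * ev T w) x
    simp only [List.length_cons]
    omega

theorem len_ev_le (w : List L) : len T (ev T w) ≤ w.length := by
  have := len_mul_ev_le (T := T) 1 w
  rwa [one_mul, len_one, zero_add] at this

theorem len_mul_le (g k : G) : len T (g * k) ≤ len T g + len T k := by
  have := len_mul_ev_le (T := T) g (wd T k)
  rwa [ev_wd] at this

theorem red_of_len {w : List L} (h : len T (ev T w) = w.length) : Red T w := by
  induction w with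
  | nil => trivial
  | cons x w ih =>
    have h1 := len_ev_le (T := T) w
    have h2 := len_val_le (T := T) (ev T w) x
    rw [ev, List.length_cons] at h
    have h3 := ih (by omega)
    refine ⟨fun h4 => ?_, h3⟩
    have h5 : Desc T (T.ι x) (ev T w) := (wd_ev h3).symm.ini _ h4
    have := len_down T h5
    omega

theorem len_inv_le (g : G) : len T g⁻¹ ≤ len T g := by
  have := len_ev_le (T := T) ((wd T g).map T.ι).reverse
  rw [ev_inv, ev_wd] at this
  simpa [len] using this

theorem len_inv (g : G) : len T g⁻¹ = len T g := by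
  have h1 := len_inv_le (T := T) g
  have h2 := len_inv_le (T := T) g⁻¹
  rw [inv_inv] at h2
  omega

theorem fst_iff (y : L) (z : G) : Fst T y z ↔ Desc T (T.ι y) z⁻¹ := by
  have h1 : Red T ((wd T z).map T.ι).reverse := by
    apply red_of_len
    rw [ev_inv, ev_wd, len_inv]
    simp [len]
  have h2 := wd_ev h1
  rw [ev_inv, ev_wd] at h2
  unfold Fst Desc
  rw [h2.ini_iff, ← List.map_reverse, ini_map]

theorem fst_len {y : L} {z : G} (h : Fst T y z) : len T ((T.val y)⁻¹ * z) + 1 = len T z := by
  rw [fst_iff] at h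
  have := len_down T h
  rw [← len_inv z, ← this, ← len_inv ((T.val y)⁻¹ * z)]
  simp

theorem wd_letters {S : Set L} (hS : IC T S) {g : G} (hg : g ∈ sub T S) :
    ∀ x ∈ wd T g, x ∈ S := by
  refine sub_ind hS (P := fun g => ∀ x ∈ wd T g, x ∈ S) (by simp [wd_one]) ?_ hg
  intro g y _ hy ih x hx
  have h1 := (wd_mul T g y).perm.subset hx
  unfold act at h1
  split_ifs at h1
  · exact ih x (List.mem_of_mem_erase h1)
  · rcases List.mem_cons.1 h1 with rfl | h2
    · exact hy
    · exact ih x h2

theorem fst_mem {S : Set L} (hS : IC T S) {g : G} (hg : g ∈ sub T S) {x : L}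
    (hx : Fst T x g) : x ∈ S :=
  wd_letters hS hg x (List.mem_reverse.1 (ini_mem hx))

theorem not_fst_one (y : L) : ¬ Fst T y (1 : G) := by
  simp [Fst, wd_one, ini]

theorem not_fst_lk {y : L} {u : G} (hu : u ∈ sub T (lk T y)) : ¬ Fst T y u :=
  fun h => T.irrefl y (fst_mem (lk_ic T y) hu h)

theorem fst_val (y : L) : Fst T y (T.val y) := by
  have h : ¬ Desc T y (1 : G) := by simp [Desc, wd_one, ini]
  rw [fst_iff, ← T.val_ι]
  have := desc_up T (g := 1) (x := T.ι y) (by rwa [T.ι_ι])
  rwa [one_mul] at this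

/-- the crossing lemma -/
theorem cross {y s : L} {z : G} (h1 : ¬ Fst T y z) (h2 : Fst T y (z * T.val s)) :
    s = y ∧ z ∈ sub T (lk T y) := by
  have h3 : ¬ Desc T (T.ι s) z := fun h => h1 (fst_down T h h2)
  have h4 := (wd_mul T z s).reverse.ini _ h2
  rw [act_neg h3, List.reverse_cons] at h4
  rcases ini_append_or T h4 with h5 | ⟨h5, h6⟩
  · exact absurd h5 h1
  · refine ⟨?_, ?_⟩
    · rcases h5 with h | ⟨-, h⟩
      · exact h
      · exact h.elim
    · rw [← ev_wd T z]
      exact ev_mem fun x hx => h6 x (List.mem_reverse.2 hx)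

theorem cross' {y s : L} {z : G} (h1 : Fst T y z) (h2 : ¬ Fst T y (z * T.val s)) :
    T.ι s = y ∧ z * T.val s ∈ sub T (lk T y) :=
  cross h2 (by rwa [T.val_ι, mul_inv_cancel_right])

theorem fst_right {y : L} {S : Set L} (hS : IC T S) (hy : y ∉ S) {u : G} (hu : u ∈ sub T S)
    (z : G) : Fst T y (z * u) ↔ Fst T y z := by
  refine sub_ind hS (P := fun u => Fst T y (z * u) ↔ Fst T y z) (by simp) ?_ hu
  intro g x _ hx ih
  rw [← ih, ← mul_assoc]
  constructor
  · intro h
    by_contra h'
    exact hy ((cross h' h).1 ▸ hx)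
  · intro h
    by_contra h'
    exact hy ((cross' h h').1 ▸ hS x hx)

theorem fst_left {y : L} {u : G} (hu : u ∈ sub T (lk T y)) (z : G) :
    Fst T y (u * z) ↔ Fst T y z := by
  have key : ∀ u ∈ sub T (lk T y), ∀ z : G, Desc T (T.ι y) (z * u) ↔ Desc T (T.ι y) z := by
    intro u hu z
    refine sub_ind (lk_ic T y) (P := fun u => Desc T (T.ι y) (z * u) ↔ Desc T (T.ι y) z)
      (by simp) ?_ hu
    intro g x _ hx ih
    rw [← mul_assoc, desc_par T (T.symm (T.C_ι hx)), ih]
  rw [fst_iff, fst_iff, mul_inv_rev, key _ (inv_mem hu)]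

theorem len_ind {P : G → Prop} (h1 : P 1)
    (h2 : ∀ g x, ¬ Desc T (T.ι x) g → P g → P (g * T.val x)) (g : G) : P g := by
  have key : ∀ w : List L, Red T w → P (ev T w) := by
    intro w hw
    induction w with
    | nil => exact h1
    | cons x w ih => exact h2 _ _ (fun h => hw.1 ((wd_ev hw.2).ini _ h)) (ih hw.2)
  have := key _ (wd_red T g)
  rwa [ev_wd] at this

/-- nesting of half-spaces -/
theorem nest {y : L} {g : G} (h1 : Fst T y g) (h2 : ¬ Fst T y g⁻¹) {z : G} (hz : Fst T y z) :
    Fst T y (g * z) := by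
  have key : ∀ z : G, ¬ Fst T y z → ¬ Fst T y (g⁻¹ * z) := by
    intro z
    refine len_ind (T := T) (P := fun z => ¬ Fst T y z → ¬ Fst T y (g⁻¹ * z))
      (fun _ => by simpa using h2) ?_ z
    intro z s hs ih h3 h4
    have h5 : ¬ Fst T y z := fun h => h3 (fst_up T hs h)
    rw [← mul_assoc] at h4
    have h6 := (cross (ih h5) h4).2
    have h7 := (fst_right (lk_ic T y) (T.irrefl y) h6 g).2 h1
    rw [mul_inv_cancel_left] at h7
    exact h5 h7
  by_contra h
  have := key _ h
  rw [inv_mul_cancel_left] at this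
  exact this hz

theorem len_coset {S : Set L} (hS : IC T S) {g : G} (hg : ∀ s ∈ S, ¬ Desc T s g) {u : G}
    (hu : u ∈ sub T S) : len T (g * u) = len T g + len T u := by
  have key : ∀ v : List L, Red T v → (∀ x ∈ v, x ∈ S) → Red T (v ++ wd T g) := by
    intro v hv hv'
    induction v with
    | nil => exact wd_red T g
    | cons x v ih =>
      refine ⟨fun h => ?_, ih hv.2 fun y hy => hv' y (by simp [hy])⟩
      rcases ini_append_or T h with h1 | ⟨h1, -⟩
      · exact hv.1 h1
      · exact hg _ (hS _ (hv' x (by simp))) h1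
  have := len_ev (key _ (wd_red T u) (wd_letters hS hu))
  rw [ev_append, ev_wd, ev_wd] at this
  rw [this]
  simp [len, add_comm]

theorem len_ret_le {S : Set L} (hS : IC T S) (g : G) : len T (ret T S g) ≤ len T g := by
  refine len_ind (T := T) (P := fun g => len T (ret T S g) ≤ len T g) (by simp) ?_ g
  intro g x hx ih
  rw [map_mul, len_up T hx]
  by_cases h : x ∈ S
  · rw [ret_pos hS h]
    have := len_val_le (T := T) (ret T S g) x
    omega
  · rw [ret_neg h, mul_one]
    omega

end Pool.Agent.H728Z.RC
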