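import Pool.Agent.H728Z.RC.CS

/-! The main rigidity argument for two class systems with a common subgroup. -/

set_option autoImplicit false

namespace Pool.Agent.H728Z.RC

section Rel

variable {L₁ G₁ L₂ G₂ I₁ I₂ H : Type} [Group G₁] [Group G₂] [Group H] [DecidableEq L₁]
  [DecidableEq L₂] {T₁ : TG L₁ G₁} {T₂ : TG L₂ G₂} (X₁ : CS T₁ I₁) (X₂ : CS T₂ I₂)
  (θ₁ : H →* G₁) (θ₂ : H →* G₂)

/-- corresponding classes -/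
def R (i : I₁) (x : G₁) (p : I₂) (α : G₂) : Prop := ∃ h : H, X₁.Cl i x (θ₁ h) ∧ X₂.Cl p α (θ₂ h)

variable {X₁ X₂ θ₁ θ₂}

theorem R.swap {i : I₁} {x : G₁} {p : I₂} {α : G₂} (h : R X₁ X₂ θ₁ θ₂ i x p α) :
    R X₂ X₁ θ₂ θ₁ p α i x := by
  obtain ⟨h, h1, h2⟩ := h
  exact ⟨h, h2, h1⟩

theorem R.move {i : I₁} {x y : G₁} {p : I₂} {α β : G₂} (h : R X₁ X₂ θ₁ θ₂ i x p α)
    (hx : x⁻¹ * y ∈ X₁.N i) (hα : α⁻¹ * β ∈ X₂.N p) : R X₁ X₂ θ₁ θ₂ i y p β := by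
  obtain ⟨h, h1, h2⟩ := h
  exact ⟨h, h1.move hx, h2.move hα⟩

theorem R.eqv {i : I₁} {x : G₁} {p : I₂} {α : G₂} (h : R X₁ X₂ θ₁ θ₂ i x p α) (k : H) :
    R X₁ X₂ θ₁ θ₂ i (θ₁ k * x) p (θ₂ k * α) := by
  obtain ⟨h, h1, h2⟩ := h
  refine ⟨k * h * k⁻¹, ?_, ?_⟩
  · simpa using h1.conj (θ₁ k)
  · simpa using h2.conj (θ₂ k)

theorem R.same (inj : Function.Injective θ₁) {i : I₁} {x y : G₁} {p q : I₂} {α β : G₂}
    (h : R X₁ X₂ θ₁ θ₂ i x p α) (h' : R X₁ X₂ θ₁ θ₂ i y q β) (hxy : x⁻¹ * y ∈ X₁.N i) :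
    p = q ∧ α⁻¹ * β ∈ X₂.N p := by
  obtain ⟨a, a1, a2⟩ := h
  obtain ⟨b, b1, b2⟩ := h'
  obtain ⟨k, hk, e1⟩ := a1.move hxy
  obtain ⟨l, hl, e2⟩ := b1
  have e3 : a ^ l = b ^ k := by
    apply inj
    rw [map_zpow, map_zpow, e1, e2, conj_zpow, conj_zpow, ← zpow_mul, ← zpow_mul, mul_comm k l]
  have c1 := a2.zpow hl
  have c2 := b2.zpow hk
  rw [← map_zpow] at c1 c2
  rw [e3] at c1
  exact c1.same c2

theorem R.adj (inj₁ : Function.Injective θ₁) (inj₂ : Function.Injective θ₂) {i j : I₁} {x : G₁}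
    {p q : I₂} {α β : G₂} (h : R X₁ X₂ θ₁ θ₂ i x p α) (h' : R X₁ X₂ θ₁ θ₂ j x q β)
    (ha : X₁.Adj i j) : X₂.Adj p q ∧ ∃ w, α⁻¹ * w ∈ X₂.N p ∧ β⁻¹ * w ∈ X₂.N q := by
  have h0 := h
  have h0' := h'
  obtain ⟨a, a1, a2⟩ := h
  obtain ⟨b, b1, b2⟩ := h'
  have e1 := a1.commute b1 ha
  have e2 : Commute a b := by
    apply inj₁
    simpa using e1.eq
  rcases a2.comm b2 (e2.symm.map θ₂) with ⟨rfl, h2⟩ | h2
  · exact absurd (h0.swap.same inj₂ h0'.swap h2).1 ha.ne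
  · exact h2

end Rel

section Main

variable {L₁ G₁ L₂ G₂ I₂ H : Type} [Group G₁] [Group G₂] [Group H] [DecidableEq L₁]
  [DecidableEq L₂] {T₁ : TG L₁ G₁} {T₂ : TG L₂ G₂}

/-- hypotheses of the main argument -/
structure Ctx (X₁ : CS T₁ (Fin 5)) (X₂ : CS T₂ I₂) (θ₁ : H →* G₁) (θ₂ : H →* G₂) : Prop where
  inj₁ : Function.Injective θ₁
  inj₂ : Function.Injective θ₂
  adj₁ : ∀ j, X₁.Adj j (j + 1)
  tri₁ : ∀ j, X₁.Tri j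
  sq₁ : X₁.NoSq
  sq₂ : X₂.NoSq
  h1 : ∀ i x, ∃ p α, R X₁ X₂ θ₁ θ₂ i x p α
  tri₂ : ∀ i x p α, R X₁ X₂ θ₁ θ₂ i x p α → X₂.Tri p
  h2 : ∀ p q q', X₂.Adj p q → X₂.Adj p q' → q ≠ q' → X₂.Tri p → ∀ α, ∃ i x, R X₁ X₂ θ₁ θ₂ i x p α
  hmax : ∀ x : G₁, ∃ i, ∀ s ∈ X₁.St i, ¬ Desc T₁ s x

/-- a tile and the corresponding point -/
def Pt (X₁ : CS T₁ (Fin 5)) (X₂ : CS T₂ I₂) (θ₁ : H →* G₁) (θ₂ : H →* G₂) (x : G₁) (α : G₂)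
    (p : Fin 5 → I₂) : Prop := ∀ j, R X₁ X₂ θ₁ θ₂ j x (p j) α

variable {X₁ : CS T₁ (Fin 5)} {X₂ : CS T₂ I₂} {θ₁ : H →* G₁} {θ₂ : H →* G₂}

theorem self_mem {G : Type} [Group G] (M : Subgroup G) (x : G) : x⁻¹ * x ∈ M := by
  rw [inv_mul_cancel]
  exact one_mem _

theorem mem_symm {G : Type} [Group G] {M : Subgroup G} {x y : G} (h : x⁻¹ * y ∈ M) :
    y⁻¹ * x ∈ M := by
  simpa using inv_mem h

theorem mem_trans {G : Type} [Group G] {M : Subgroup G} {x y z : G} (h : x⁻¹ * y ∈ M)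
    (h' : y⁻¹ * z ∈ M) : x⁻¹ * z ∈ M := by
  simpa [mul_assoc] using mul_mem h h'

namespace Ctx

variable (c : Ctx X₁ X₂ θ₁ θ₂)
include c

theorem pt_tri {x : G₁} {α : G₂} {p : Fin 5 → I₂} (h : Pt X₁ X₂ θ₁ θ₂ x α p) (j : Fin 5) :
    X₂.Tri (p j) := c.tri₂ _ _ _ _ (h j)

theorem pt_adj {x : G₁} {α : G₂} {p : Fin 5 → I₂} (h : Pt X₁ X₂ θ₁ θ₂ x α p) (j : Fin 5) :
    X₂.Adj (p j) (p (j + 1)) := ((h j).adj c.inj₁ c.inj₂ (h (j + 1)) (c.adj₁ j)).1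

theorem L1 (x : G₁) : ∃ α p, Pt X₁ X₂ θ₁ θ₂ x α p := by
  choose p α h using fun i => c.h1 i x
  obtain ⟨z, hz⟩ := CS.pent c.sq₂ (τ := p) (x := α) (fun j => c.tri₂ _ _ _ _ (h j))
    (fun j => ((h j).adj c.inj₁ c.inj₂ (h (j + 1)) (c.adj₁ j)).1)
    (fun j => ((h j).adj c.inj₁ c.inj₂ (h (j + 1)) (c.adj₁ j)).2)
  exact ⟨z, p, fun j => (h j).move (self_mem _ _) (hz j)⟩

theorem L2 {x : G₁} {α α' : G₂} {p p' : Fin 5 → I₂} (h : Pt X₁ X₂ θ₁ θ₂ x α p)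
    (h' : Pt X₁ X₂ θ₁ θ₂ x α' p') : α = α' ∧ p = p' := by
  have h1 := fun j => (h j).same c.inj₁ (h' j) (self_mem _ _)
  refine ⟨?_, funext fun j => (h1 j).1⟩
  have := CS.pent_uniq c.sq₂ (c.pt_tri h) (c.pt_adj h) fun j => (h1 j).2
  rwa [inv_mul_eq_one] at this

theorem L3 {x : G₁} {α : G₂} {p : Fin 5 → I₂} (h : Pt X₁ X₂ θ₁ θ₂ x α p) (α' : G₂) :
    ∃ x' p', Pt X₁ X₂ θ₁ θ₂ x' α' p' ∧ ∀ j, ∃ j', p' j' = p j := by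
  have h1 : ∀ j, ∃ i y, R X₁ X₂ θ₁ θ₂ i y (p j) α' := by
    intro j
    have e : ∀ j : Fin 5, ∃ k, j = k + 1 := by decide
    obtain ⟨k, rfl⟩ := e j
    exact c.h2 _ _ _ (c.pt_adj h k).symm (c.pt_adj h (k + 1))
      (CS.pent_ne (c.pt_tri h) (c.pt_adj h) k) (c.pt_tri h _) α'
  choose τ y hy using h1
  have h2 := fun j => (hy j).swap.adj c.inj₂ c.inj₁ (hy (j + 1)).swap (c.pt_adj h j)
  obtain ⟨z, hz⟩ := CS.pent c.sq₁ (τ := τ) (x := y) (fun j => c.tri₁ _) (fun j => (h2 j).1)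
    (fun j => (h2 j).2)
  have h3 := CS.pent_inj (fun j => c.tri₁ (τ j)) (fun j => (h2 j).1)
  have h4 := Finite.injective_iff_surjective.1 h3
  choose σ hσ using h4
  refine ⟨z, fun j => p (σ j), fun j => ?_, fun j => ⟨τ j, congrArg p (h3 (hσ (τ j)))⟩⟩
  have := (hy (σ j)).move (hz _) (self_mem _ _)
  rwa [hσ] at this

theorem L4 {x x' : G₁} {α : G₂} {p p' : Fin 5 → I₂} (h : Pt X₁ X₂ θ₁ θ₂ x α p)
    (h' : Pt X₁ X₂ θ₁ θ₂ x' α p') (hp : ∀ j, ∃ j', p' j' = p j) : x = x' := by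
  have h1 : ∀ j, x⁻¹ * x' ∈ X₁.N j := by
    intro j
    obtain ⟨j', e⟩ := hp j
    have := h' j'
    rw [e] at this
    exact ((h j).swap.same c.inj₂ this.swap (self_mem _ _)).2
  have := CS.pent_uniq c.sq₁ (τ := id) c.tri₁ c.adj₁ h1
  rwa [inv_mul_eq_one] at this

theorem L6 [Finite I₂] : ∃ x α p i, Pt X₁ X₂ θ₁ θ₂ x α p ∧
    ∀ x' p', Pt X₁ X₂ θ₁ θ₂ x' α p' → x⁻¹ * x' ∈ X₁.N i → x' = x := by
  obtain ⟨α, p, h⟩ := c.L1 1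
  have hf : {x | ∃ p, Pt X₁ X₂ θ₁ θ₂ x α p}.Finite := by
    have : {x | ∃ p, Pt X₁ X₂ θ₁ θ₂ x α p} = ⋃ p, {x | Pt X₁ X₂ θ₁ θ₂ x α p} := by
      ext x
      simp
    rw [this]
    refine Set.finite_iUnion fun p => Set.Subsingleton.finite ?_
    intro x hx y hy
    exact c.L4 hx hy fun j => ⟨j, rfl⟩
  obtain ⟨x, ⟨q, hq⟩, hx⟩ := Set.exists_max_image _ (len T₁) hf ⟨1, p, h⟩
  obtain ⟨i, hi⟩ := c.hmax x
  refine ⟨x, α, q, i, hq, fun x' p' h1 h2 => ?_⟩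
  have h3 := len_coset (X₁.icSt i) hi h2
  rw [mul_inv_cancel_left] at h3
  have h4 := hx x' ⟨p', h1⟩
  have h5 := eq_one_of_len T₁ (g := x⁻¹ * x') (by omega)
  rw [inv_mul_eq_one] at h5
  exact h5.symm

section Cyl

variable {x : G₁} {α : G₂} {p : Fin 5 → I₂} {i : Fin 5} (h : Pt X₁ X₂ θ₁ θ₂ x α p)
  (hK : ∀ x' p', Pt X₁ X₂ θ₁ θ₂ x' α p' → x⁻¹ * x' ∈ X₁.N i → x' = x)
include h

theorem L7a {x' : G₁} {α' : G₂} {p' : Fin 5 → I₂} (h' : Pt X₁ X₂ θ₁ θ₂ x' α' p')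
    (hx : x⁻¹ * x' ∈ X₁.N i) : p i = p' i ∧ α⁻¹ * α' ∈ X₂.N (p i) :=
  (h i).same c.inj₁ (h' i) hx

theorem L7b {x' : G₁} {α' : G₂} {p' : Fin 5 → I₂} (h' : Pt X₁ X₂ θ₁ θ₂ x' α' p') {j : Fin 5}
    (e : p' j = p i) (hα : α⁻¹ * α' ∈ X₂.N (p i)) : x⁻¹ * x' ∈ X₁.N i := by
  have := h' j
  rw [e] at this
  exact ((h i).swap.same c.inj₂ this.swap hα).2

include hK

theorem L7 {x' : G₁} {α' : G₂} {p' : Fin 5 → I₂} (h' : Pt X₁ X₂ θ₁ θ₂ x' α' p')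
    (hx : x⁻¹ * x' ∈ X₁.N i) (j : Fin 5) : ∃ j', p j' = p' j := by
  obtain ⟨y, q, h1, h2⟩ := c.L3 h' α
  obtain ⟨k, hk⟩ := h2 i
  have h3 := c.L7b h h1 (hk.trans (c.L7a h h' hx).1.symm) (self_mem _ _)
  have h4 := hK y q h1 h3
  subst h4
  rw [(c.L2 h h1).2]
  exact h2 j

theorem L7c {x' : G₁} {α' : G₂} {p' : Fin 5 → I₂} (h' : Pt X₁ X₂ θ₁ θ₂ x' α' p')
    (hx : x⁻¹ * x' ∈ X₁.N i) (j : Fin 5) : ∃ j', p' j' = p j := by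
  choose σ hσ using c.L7 h hK h' hx
  have h1 : Function.Injective σ := by
    intro a b e
    apply CS.pent_inj (c.pt_tri h') (c.pt_adj h')
    rw [← hσ, ← hσ, e]
  obtain ⟨k, rfl⟩ := Finite.injective_iff_surjective.1 h1 j
  exact ⟨k, (hσ k).symm⟩

theorem L9 {x' x'' : G₁} {α' α'' : G₂} {p' p'' : Fin 5 → I₂} (h' : Pt X₁ X₂ θ₁ θ₂ x' α' p')
    (h'' : Pt X₁ X₂ θ₁ θ₂ x'' α'' p'') (hx' : x⁻¹ * x' ∈ X₁.N i) (hx'' : x⁻¹ * x'' ∈ X₁.N i) :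
    x'⁻¹ * x'' ∈ sub T₁ (X₁.S i) ↔ α'⁻¹ * α'' ∈ sub T₂ (X₂.S (p i)) := by
  have e : ∀ j : Fin 5, ∃ k, j = k + 1 := by decide
  obtain ⟨k, rfl⟩ := e i
  rw [(c.L7a h h' hx').1]
  constructor
  · intro h1
    exact CS.pent_far c.sq₂ (c.pt_tri h') (c.pt_adj h') k
      ((h' k).same c.inj₁ (h'' k) ((c.adj₁ k).D_le h1)).2
      ((h' _).same c.inj₁ (h'' _) ((c.adj₁ (k + 1)).symm.D_le h1)).2
  · intro h1
    have key : ∀ j, X₂.Adj (p' j) (p' (k + 1)) → x'⁻¹ * x'' ∈ X₁.N j := by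
      intro j hj
      obtain ⟨j1, e1⟩ := c.L7 h hK h' hx' j
      obtain ⟨j2, e2⟩ := c.L7c h hK h'' hx'' j1
      exact c.L7b h' h'' (e2.trans e1) (hj.D_le h1)
    exact CS.pent_far c.sq₁ (τ := id) c.tri₁ c.adj₁ k (key _ (c.pt_adj h' k))
      (key _ (c.pt_adj h' (k + 1)).symm)

end Cyl

theorem main [Finite I₂] [θ₂.range.Normal] [θ₂.range.FiniteIndex]
    (hc : ∀ (i : Fin 5) (P : I₂), X₂.Tri P → ∀ (H' : Type) [Group H']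
      (φ : H' →* sub T₂ (X₂.K P)) (ψ : H' →* sub T₁ (X₁.K i))
      (β : sub T₂ (X₂.K P) ≃ sub T₁ (X₁.K i)), (∀ h x, β (φ h * x) = ψ h * β x) →
      φ.range.index ≠ 0 →
      (∀ h, ∃ h0 d, (ψ h : G₁) = ret T₁ (X₁.K i) (d⁻¹ * θ₁ h0 * d)) → False) : False := by
  obtain ⟨x, α, p, i, h, hK⟩ := c.L6
  let ρ : sub T₂ (X₂.K (p i)) → sub T₁ (X₁.K i) → Prop := fun f l =>
    ∃ x' α' p', Pt X₁ X₂ θ₁ θ₂ x' α' p' ∧ x⁻¹ * x' ∈ X₁.N i ∧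
      ret T₁ (X₁.K i) (x⁻¹ * x') = l ∧ ret T₂ (X₂.K (p i)) (α⁻¹ * α') = f
  have r1 : ∀ f, ∃ l, ρ f l := by
    intro f
    obtain ⟨x', p', h1, h2⟩ := c.L3 h (α * f)
    obtain ⟨j, hj⟩ := h2 i
    have h3 := c.L7b h h1 hj (by rw [inv_mul_cancel_left]; exact CS.K_le _ f.2)
    refine ⟨⟨_, ret_mem' (X₁.icK i) (x⁻¹ * x')⟩, x', _, p', h1, h3, rfl, ?_⟩
    rw [inv_mul_cancel_left, ret_of_mem (X₂.icK _) f.2]
  have r2 : ∀ l, ∃ f, ρ f l := by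
    intro l
    obtain ⟨α', p', h1⟩ := c.L1 (x * l)
    refine ⟨⟨_, ret_mem' (X₂.icK _) (α⁻¹ * α')⟩, _, α', p', h1, ?_, ?_, rfl⟩
    · rw [inv_mul_cancel_left]
      exact CS.K_le _ l.2
    · rw [inv_mul_cancel_left, ret_of_mem (X₁.icK _) l.2]
  have r3 : ∀ f f' l l', ρ f l → ρ f' l' → (l = l' ↔ f = f') := by
    rintro f f' l l' ⟨x', α', p', a1, a2, a3, a4⟩ ⟨x'', α'', p'', b1, b2, b3, b4⟩
    have := c.L9 h hK a1 b1 a2 b2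
    rw [Subtype.ext_iff, Subtype.ext_iff, ← a3, ← a4, ← b3, ← b4, CS.ret_eq_iff a2 b2,
      CS.ret_eq_iff (c.L7a h a1 a2).2 (c.L7a h b1 b2).2]
    simpa [mul_assoc] using this
  choose β hβ using r1
  have hb : Function.Bijective β := by
    refine ⟨fun f f' e => (r3 _ _ _ _ (hβ f) (hβ f')).1 e, fun l => ?_⟩
    obtain ⟨f, hf⟩ := r2 l
    exact ⟨f, (r3 _ _ _ _ (hβ f) hf).2 rfl⟩
  let H' : Subgroup H := (X₂.N (p i)).comap ((MulAut.conj α⁻¹).toMonoidHom.comp θ₂)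
  let φ : H' →* sub T₂ (X₂.K (p i)) :=
    ((ret T₂ (X₂.K (p i))).codRestrict _ (ret_mem' (X₂.icK _))).comp
      (((MulAut.conj α⁻¹).toMonoidHom.comp θ₂).comp H'.subtype)
  let ψ : H' →* sub T₁ (X₁.K i) :=
    ((ret T₁ (X₁.K i)).codRestrict _ (ret_mem' (X₁.icK _))).comp
      (((MulAut.conj x⁻¹).toMonoidHom.comp θ₁).comp H'.subtype)
  have eφ : ∀ k : H', (φ k : G₂) = ret T₂ (X₂.K (p i)) (α⁻¹ * θ₂ k * α) := by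
    intro k
    simp [φ]
  have eψ : ∀ k : H', (ψ k : G₁) = ret T₁ (X₁.K i) (x⁻¹ * θ₁ k * x) := by
    intro k
    simp [ψ]
  have mH : ∀ k : H, k ∈ H' ↔ α⁻¹ * θ₂ k * α ∈ X₂.N (p i) := by
    intro k
    simp [H']
  refine hc i (p i) (c.pt_tri h i) H' φ ψ (Equiv.ofBijective β hb) ?_ ?_
    fun k => ⟨k, x, eψ k⟩
  · intro k f
    simp only [Equiv.ofBijective_apply]
    refine (r3 _ _ _ _ (hβ _) ?_).2 rfl
    obtain ⟨x', α', p', a1, a2, a3, a4⟩ := hβ f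
    have b1 : x⁻¹ * (θ₁ k * x) ∈ X₁.N i :=
      c.L7b h (fun j => (h j).eqv k) rfl (by rw [← mul_assoc]; exact (mH k).1 k.2)
    refine ⟨θ₁ k * x', θ₂ k * α', p', fun j => (a1 j).eqv k, ?_, ?_, ?_⟩
    · have := mul_mem b1 a2
      convert this using 1
      group
    · rw [Subgroup.coe_mul, eψ, ← a3, ← map_mul]
      congr 1
      group
    · rw [Subgroup.coe_mul, eφ, ← a4, ← map_mul]
      congr 1
      group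
  · have hle : θ₂.range.subgroupOf (sub T₂ (X₂.K (p i))) ≤ φ.range := by
      intro f hf
      obtain ⟨k, hk⟩ := (inferInstance : θ₂.range.Normal).conj_mem _ hf α
      have e : α⁻¹ * θ₂ k * α = f := by
        rw [hk]
        simp [mul_assoc]
      refine ⟨⟨k, (mH k).2 (by rw [e]; exact CS.K_le _ f.2)⟩, Subtype.ext ?_⟩
      rw [eφ, e, ret_of_mem (X₂.icK _) f.2]
    exact (Subgroup.finiteIndex_of_le hle).index_ne_zero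

end Ctx

end Main

end Pool.Agent.H728Z.RC
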