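import Mathlib

/-! Normal forms for groups given by letters with an involution and commutations. -/

set_option autoImplicit false

namespace Pool.Agent.H728Z.RC

/-- a group generated by letters, defined by inversion and commutation relations -/
structure TG (L G : Type) [Group G] where
  ι : L → L
  C : L → L → Prop
  val : L → G
  ι_ι : ∀ x, ι (ι x) = x
  symm : ∀ {x y}, C x y → C y x
  irrefl : ∀ x, ¬ C x x
  C_ι : ∀ {x y}, C x y → C (ι x) y
  val_ι : ∀ x, val (ι x) = (val x)⁻¹
  val_comm : ∀ x y, C x y → Commute (val x) (val y)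
  gen : Subgroup.closure (Set.range val) = ⊤
  lift : ∀ (H : Type) [Group H] (f : L → H), (∀ x, f (ι x) = (f x)⁻¹) →
    (∀ x y, C x y → Commute (f x) (f y)) → ∃ φ : G →* H, ∀ x, φ (val x) = f x

variable {L G : Type} [Group G] (T : TG L G)

theorem TG.C_ι' {x y : L} (h : T.C x y) : T.C x (T.ι y) := T.symm (T.C_ι (T.symm h))

theorem TG.C_of_ι {x y : L} (h : T.C (T.ι x) y) : T.C x y := by
  have := T.C_ι h
  rwa [T.ι_ι] at this

/-- `x` can be moved to the front of the word -/
def ini (x : L) : List L → Prop
  | [] => False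
  | y :: w => y = x ∨ (T.C x y ∧ ini x w)

/-- equivalence of words by swapping commuting neighbours -/
inductive Sw : List L → List L → Prop
  | refl (w : List L) : Sw w w
  | swap (x y : L) (w : List L) (h : T.C x y) : Sw (x :: y :: w) (y :: x :: w)
  | cons (x : L) {w w' : List L} (h : Sw w w') : Sw (x :: w) (x :: w')
  | trans {a b c : List L} (h1 : Sw a b) (h2 : Sw b c) : Sw a c

/-- reduced words -/
def Red : List L → Prop
  | [] => True
  | y :: w => ¬ ini T (T.ι y) w ∧ Red w

variable {T}

theorem Sw.symm {a b : List L} (h : Sw T a b) : Sw T b a := by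
  induction h with
  | refl w => exact Sw.refl w
  | swap x y w h => exact Sw.swap y x w (T.symm h)
  | cons x _ ih => exact Sw.cons x ih
  | trans _ _ ih1 ih2 => exact Sw.trans ih2 ih1

theorem Sw.perm {a b : List L} (h : Sw T a b) : a.Perm b := by
  induction h with
  | refl w => exact List.Perm.refl w
  | swap x y w h => exact List.Perm.swap y x w
  | cons x _ ih => exact ih.cons x
  | trans _ _ ih1 ih2 => exact ih1.trans ih2

theorem ne_of_adj {x y : L} (h : T.C x y) : x ≠ y := by
  rintro rfl
  exact T.irrefl _ h

theorem Sw.ini {a b : List L} (h : Sw T a b) (x : L) : ini T x a → ini T x b := by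
  induction h with
  | refl w => exact id
  | swap y z w h =>
    simp only [RC.ini]
    rintro (rfl | ⟨h1, rfl | ⟨h2, h3⟩⟩)
    · exact Or.inr ⟨h, Or.inl rfl⟩
    · exact Or.inl rfl
    · exact Or.inr ⟨h2, Or.inr ⟨h1, h3⟩⟩
  | cons y _ ih =>
    simp only [RC.ini]
    rintro (rfl | ⟨h1, h2⟩)
    · exact Or.inl rfl
    · exact Or.inr ⟨h1, ih h2⟩
  | trans _ _ ih1 ih2 => exact fun h => ih2 (ih1 h)

theorem Sw.ini_iff {a b : List L} (h : Sw T a b) (x : L) :
    RC.ini T x a ↔ RC.ini T x b := ⟨h.ini x, h.symm.ini x⟩

theorem Sw.red {a b : List L} (h : Sw T a b) : Red T a → Red T b := by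
  induction h with
  | refl w => exact id
  | swap y z w h =>
    simp only [Red, RC.ini]
    rintro ⟨h1, h2, h3⟩
    refine ⟨?_, ?_, h3⟩
    · rintro (h4 | ⟨-, h4⟩)
      · exact ne_of_adj (x := y) (y := T.ι z) (T.C_ι' h) h4
      · exact h2 h4
    · intro h4
      exact h1 (Or.inr ⟨T.C_ι h, h4⟩)
  | cons y h ih =>
    simp only [Red]
    rintro ⟨h1, h2⟩
    exact ⟨fun h3 => h1 (h.symm.ini _ h3), ih h2⟩
  | trans _ _ ih1 ih2 => exact fun h => ih2 (ih1 h)

theorem ini_adj {x y : L} {w : List L} (hx : ini T x w) (hy : ini T y w)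
    (h : x ≠ y) : T.C x y := by
  induction w with
  | nil => exact hx.elim
  | cons z w ih =>
    rcases hx with rfl | ⟨h1, h2⟩
    · rcases hy with rfl | ⟨h3, -⟩
      · exact absurd rfl h
      · exact T.symm h3
    · rcases hy with rfl | ⟨h3, h4⟩
      · exact h1
      · exact ih h2 h4

theorem ini_mem {x : L} {w : List L} (hx : ini T x w) : x ∈ w := by
  induction w with
  | nil => exact hx.elim
  | cons z w ih =>
    rcases hx with rfl | ⟨-, h2⟩
    · simp
    · simp [ih h2]

theorem ini_append {x : L} {w : List L} (u : List L) (hx : ini T x w) :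
    ini T x (w ++ u) := by
  induction w with
  | nil => exact hx.elim
  | cons z w ih =>
    rcases hx with rfl | ⟨h1, h2⟩
    · exact Or.inl rfl
    · exact Or.inr ⟨h1, ih h2⟩

theorem Sw.append_right {a b : List L} (h : Sw T a b) (u : List L) :
    Sw T (a ++ u) (b ++ u) := by
  induction h with
  | refl w => exact Sw.refl _
  | swap y z w h => exact Sw.swap y z _ h
  | cons y _ ih => exact Sw.cons y ih
  | trans _ _ ih1 ih2 => exact ih1.trans ih2

theorem Sw.append_left {a b : List L} (h : Sw T a b) (u : List L) :
    Sw T (u ++ a) (u ++ b) := by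
  induction u with
  | nil => exact h
  | cons y u ih => exact Sw.cons y ih

theorem Sw.reverse {a b : List L} (h : Sw T a b) : Sw T a.reverse b.reverse := by
  induction h with
  | refl w => exact Sw.refl _
  | swap y z w h =>
    simp only [List.reverse_cons, List.append_assoc]
    exact (Sw.swap z y [] (T.symm h)).append_left _
  | cons y _ ih =>
    simp only [List.reverse_cons]
    exact ih.append_right _
  | trans _ _ ih1 ih2 => exact ih1.trans ih2

theorem ini_cons_adj {x y : L} (h : T.C x y) (w : List L) :
    ini T y (x :: w) ↔ ini T y w := by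
  simp only [ini]
  constructor
  · rintro (h1 | ⟨-, h1⟩)
    · exact absurd h1 (ne_of_adj h)
    · exact h1
  · exact fun h1 => Or.inr ⟨T.symm h, h1⟩

variable [DecidableEq L]

theorem sw_cons_erase {x : L} {w : List L} (h : ini T x w) :
    Sw T w (x :: w.erase x) := by
  induction w with
  | nil => exact h.elim
  | cons y w ih =>
    rcases h with rfl | ⟨h1, h2⟩
    · rw [List.erase_cons_head]
      exact Sw.refl _
    · rw [List.erase_cons_tail (by simpa using (ne_of_adj h1).symm)]
      exact ((ih h2).cons y).trans (Sw.swap y x _ (T.symm h1))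

theorem Sw.erase {a b : List L} (h : Sw T a b) (x : L) (hx : RC.ini T x a) :
    Sw T (a.erase x) (b.erase x) := by
  induction h with
  | refl w => exact Sw.refl _
  | swap y z w h =>
    have hyz := ne_of_adj h
    by_cases h1 : y = x
    · subst h1
      rw [List.erase_cons_head, List.erase_cons_tail (by simpa using hyz.symm),
        List.erase_cons_head]
      exact Sw.refl _
    · by_cases h2 : z = x
      · subst h2
        rw [List.erase_cons_head, List.erase_cons_tail (by simpa using hyz),
          List.erase_cons_head]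
        exact Sw.refl _
      · rw [List.erase_cons_tail (by simpa using h1), List.erase_cons_tail (by simpa using h2),
          List.erase_cons_tail (by simpa using h2), List.erase_cons_tail (by simpa using h1)]
        exact Sw.swap y z _ h
  | cons y _ ih =>
    by_cases h1 : y = x
    · subst h1
      rw [List.erase_cons_head, List.erase_cons_head]
      assumption
    · rw [List.erase_cons_tail (by simpa using h1), List.erase_cons_tail (by simpa using h1)]
      rcases hx with h2 | ⟨-, h2⟩
      · exact absurd h2 h1
      · exact (ih h2).cons y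
  | trans h1 _ ih1 ih2 => exact (ih1 hx).trans (ih2 (h1.ini x hx))

variable (T)

open Classical in
/-- multiplying a reduced word by a letter -/
noncomputable def act (x : L) (w : List L) : List L :=
  if ini T (T.ι x) w then w.erase (T.ι x) else x :: w

variable {T}

theorem act_pos {x : L} {w : List L} (h : ini T (T.ι x) w) :
    act T x w = w.erase (T.ι x) := by
  unfold act
  rw [if_pos h]

theorem act_neg {x : L} {w : List L} (h : ¬ ini T (T.ι x) w) :
    act T x w = x :: w := by
  unfold act
  rw [if_neg h]

theorem red_act (x : L) {w : List L} (h : Red T w) : Red T (act T x w) := by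
  by_cases h1 : ini T (T.ι x) w
  · rw [act_pos h1]
    exact ((sw_cons_erase h1).red h).2
  · rw [act_neg h1]
    exact ⟨h1, h⟩

theorem Sw.act {a b : List L} (h : Sw T a b) (x : L) :
    Sw T (act T x a) (act T x b) := by
  by_cases h1 : RC.ini T (T.ι x) a
  · rw [act_pos h1, act_pos (h.ini _ h1)]
    exact h.erase _ h1
  · rw [act_neg h1, act_neg (fun h2 => h1 (h.symm.ini _ h2))]
    exact h.cons x

theorem act_act (x : L) {w : List L} (h : Red T w) :
    Sw T (act T (T.ι x) (act T x w)) w := by
  by_cases h1 : ini T (T.ι x) w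
  · rw [act_pos h1, act_neg ((sw_cons_erase h1).red h).1]
    exact (sw_cons_erase h1).symm
  · rw [act_neg h1, act_pos (by rw [T.ι_ι]; exact Or.inl rfl), T.ι_ι,
      List.erase_cons_head]
    exact Sw.refl _

theorem ini_act {x y : L} (h : T.C x y) (w : List L) :
    ini T y (act T x w) ↔ ini T y w := by
  by_cases h1 : ini T (T.ι x) w
  · rw [act_pos h1, (sw_cons_erase h1).ini_iff, ini_cons_adj (x := T.ι x) (T.C_ι h)]
  · rw [act_neg h1, ini_cons_adj h]

theorem act_comm {x y : L} (h : T.C x y) (w : List L) :
    Sw T (act T x (act T y w)) (act T y (act T x w)) := by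
  have e1 := ini_act (x := y) (y := T.ι x) (T.symm (T.C_ι h)) w
  have e2 := ini_act (x := x) (y := T.ι y) (T.C_ι' h) w
  by_cases h1 : ini T (T.ι x) w
  · by_cases h2 : ini T (T.ι y) w
    · rw [act_pos (e1.2 h1), act_pos (e2.2 h2), act_pos h1, act_pos h2, List.erase_comm]
      exact Sw.refl _
    · rw [act_pos (e1.2 h1), act_neg (fun h3 => h2 (e2.1 h3)), act_pos h1, act_neg h2,
        List.erase_cons_tail (by simpa using ne_of_adj (x := y) (y := T.ι x) (T.symm (T.C_ι h)))]
      exact Sw.refl _
  · by_cases h2 : ini T (T.ι y) w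
    · rw [act_neg (fun h3 => h1 (e1.1 h3)), act_pos (e2.2 h2), act_neg h1, act_pos h2,
        List.erase_cons_tail (by simpa using ne_of_adj (x := x) (y := T.ι y) (T.C_ι' h))]
      exact Sw.refl _
    · rw [act_neg (fun h3 => h1 (e1.1 h3)), act_neg (fun h3 => h2 (e2.1 h3)), act_neg h1,
        act_neg h2]
      exact Sw.swap x y w h

variable (T)

/-- the setoid on reduced words -/
def swS : Setoid {w : List L // Red T w} where
  r a b := Sw T a.1 b.1
  iseqv := ⟨fun _ => Sw.refl _, Sw.symm, Sw.trans⟩

/-- classes of reduced words -/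
def Om : Type := Quotient (swS T)

/-- the action on classes -/
noncomputable def actO (x : L) : Om T → Om T :=
  Quotient.map (fun w => ⟨act T x w.1, red_act x w.2⟩) (fun _ _ h => Sw.act h x)

theorem actO_actO (x : L) (w : Om T) : actO T (T.ι x) (actO T x w) = w := by
  induction w using Quotient.inductionOn with
  | h w => exact Quotient.sound (act_act x w.2)

/-- the permutation attached to a letter -/
noncomputable def tau (x : L) : Equiv.Perm (Om T) where
  toFun := actO T (T.ι x)
  invFun := actO T x
  left_inv w := by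
    have := actO_actO T (T.ι x) w
    rwa [T.ι_ι] at this
  right_inv w := actO_actO T x w

theorem exists_phi : ∃ φ : G →* Equiv.Perm (Om T), ∀ x, φ (T.val x) = tau T x := by
  apply T.lift
  · intro x
    ext w
    change actO T (T.ι (T.ι x)) w = actO T x w
    rw [T.ι_ι]
  · intro x y h
    ext w
    induction w using Quotient.inductionOn with
    | h w => exact Quotient.sound (act_comm (T.C_ι (T.C_ι' h)) w.1)

/-- the action of the group on classes of reduced words -/
noncomputable def phi : G →* Equiv.Perm (Om T) := (exists_phi T).choose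

theorem phi_val (x : L) : phi T (T.val x) = tau T x := (exists_phi T).choose_spec x

/-- the normal form -/
noncomputable def nf (g : G) : Om T := phi T g⁻¹ (Quotient.mk _ ⟨[], trivial⟩)

theorem nf_one : nf T 1 = Quotient.mk _ ⟨[], trivial⟩ := by simp [nf]

theorem nf_mul (g : G) (x : L) : nf T (g * T.val x) = actO T x (nf T g) := by
  simp only [nf, mul_inv_rev, map_mul, map_inv, phi_val]
  rfl

omit [DecidableEq L] in
theorem G_ind {P : G → Prop} (h1 : P 1) (h2 : ∀ g x, P g → P (g * T.val x)) (g : G) :
    P g := by
  have hg : g ∈ Subgroup.closure (Set.range T.val) := by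
    rw [T.gen]
    trivial
  induction hg using Subgroup.closure_induction_right with
  | one => exact h1
  | mul_right g _ y hy ih =>
    obtain ⟨v, rfl⟩ := hy
    exact h2 g v ih
  | mul_inv_cancel g _ y hy ih =>
    obtain ⟨v, rfl⟩ := hy
    rw [← T.val_ι]
    exact h2 g _ ih

/-- a reduced word for `g` -/
noncomputable def wd (g : G) : List L := (nf T g).out.1

theorem wd_red (g : G) : Red T (wd T g) := (nf T g).out.2

theorem wd_one : wd T 1 = [] := by
  have h : Sw T (wd T 1) [] := by
    have := Quotient.out_eq (nf T 1)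
    rw [nf_one] at this
    have h2 := Quotient.exact this
    unfold wd
    rw [nf_one]
    exact h2
  exact h.perm.eq_nil

theorem wd_mul (g : G) (x : L) : Sw T (wd T (g * T.val x)) (act T x (wd T g)) := by
  have h1 := nf_mul T g x
  rw [← Quotient.out_eq (nf T g), ← Quotient.out_eq (nf T (g * T.val x))] at h1
  exact Quotient.exact h1

/-- the value of a word, read from the right -/
def ev : List L → G
  | [] => 1
  | x :: w => ev w * T.val x

omit [DecidableEq L] in
theorem ev_sw {a b : List L} (h : Sw T a b) : ev T a = ev T b := by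
  induction h with
  | refl w => rfl
  | swap y z w h =>
    simp only [ev, mul_assoc]
    rw [(T.val_comm _ _ h).eq]
  | cons y _ ih => simp only [ev, ih]
  | trans _ _ ih1 ih2 => exact ih1.trans ih2

theorem ev_wd (g : G) : ev T (wd T g) = g := by
  induction g using G_ind T with
  | h1 => rw [wd_one]; rfl
  | h2 g x ih =>
    rw [ev_sw T (wd_mul T g x)]
    by_cases h1 : ini T (T.ι x) (wd T g)
    · rw [act_pos h1]
      have := ev_sw T (sw_cons_erase h1)
      rw [ih, ev, T.val_ι] at this
      rw [eq_mul_inv_iff_mul_eq] at this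
      exact this.symm
    · rw [act_neg h1, ev, ih]

theorem wd_ne_nil {g : G} (h : g ≠ 1) : wd T g ≠ [] := by
  intro h1
  have := ev_wd T g
  rw [h1] at this
  exact h this.symm

/-- word length -/
noncomputable def len (g : G) : ℕ := (wd T g).length

/-- `g` ends with the letter `x` -/
def Desc (x : L) (g : G) : Prop := ini T x (wd T g)

/-- `g` starts with the letter `x` -/
def Fst (x : L) (g : G) : Prop := ini T x (wd T g).reverse

theorem eq_one_of_len {g : G} (h : len T g = 0) : g = 1 := by
  by_contra h1
  exact wd_ne_nil T h1 (List.length_eq_zero_iff.1 h)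

theorem len_one : len T 1 = 0 := by simp [len, wd_one]

theorem len_down {g : G} {x : L} (h : Desc T (T.ι x) g) :
    len T (g * T.val x) + 1 = len T g := by
  have h1 := (wd_mul T g x).perm.length_eq
  have h2 := (sw_cons_erase h).perm.length_eq
  rw [act_pos h] at h1
  simp only [len, h1, h2, List.length_cons]

theorem len_up {g : G} {x : L} (h : ¬ Desc T (T.ι x) g) :
    len T (g * T.val x) = len T g + 1 := by
  have h1 := (wd_mul T g x).perm.length_eq
  rw [act_neg h] at h1
  simp only [len, h1, List.length_cons]

theorem desc_up {g : G} {x : L} (h : ¬ Desc T (T.ι x) g) :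
    Desc T x (g * T.val x) := by
  apply (wd_mul T g x).symm.ini
  rw [act_neg h]
  exact Or.inl rfl

theorem desc_down {g : G} {x : L} (h : Desc T (T.ι x) g) :
    ¬ Desc T x (g * T.val x) := by
  intro h1
  have h2 := (wd_mul T g x).ini _ h1
  rw [act_pos h] at h2
  have h3 := ((sw_cons_erase h).red (wd_red T g)).1
  rw [T.ι_ι] at h3
  exact h3 h2

theorem desc_adj {g : G} {x y : L} (hx : Desc T x g) (hy : Desc T y g) (h : x ≠ y) :
    T.C x y := ini_adj hx hy h

theorem desc_par {x y : L} (h : T.C x y) (g : G) :
    Desc T y (g * T.val x) ↔ Desc T y g :=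
  ((wd_mul T g x).ini_iff y).trans (ini_act h _)

theorem exists_desc {g : G} (h : g ≠ 1) : ∃ x, Desc T x g := by
  obtain ⟨x, w, hw⟩ := List.exists_cons_of_ne_nil (wd_ne_nil T h)
  refine ⟨x, ?_⟩
  unfold Desc
  rw [hw]
  exact Or.inl rfl

theorem exists_fst {g : G} (h : g ≠ 1) : ∃ x, Fst T x g := by
  obtain ⟨x, w, hw⟩ := List.exists_cons_of_ne_nil
    (show (wd T g).reverse ≠ [] by simpa using wd_ne_nil T h)
  refine ⟨x, ?_⟩
  unfold Fst
  rw [hw]
  exact Or.inl rfl

theorem fst_adj {g : G} {x y : L} (hx : Fst T x g) (hy : Fst T y g) (h : x ≠ y) :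
    T.C x y := ini_adj hx hy h

theorem fst_up {g : G} {x y : L} (h : ¬ Desc T (T.ι x) g) (hy : Fst T y g) :
    Fst T y (g * T.val x) := by
  apply (wd_mul T g x).symm.reverse.ini
  rw [act_neg h, List.reverse_cons]
  exact ini_append _ hy

theorem fst_down {g : G} {x y : L} (h : Desc T (T.ι x) g)
    (hy : Fst T y (g * T.val x)) : Fst T y g := by
  have h1 := fst_up T (x := T.ι x) (by rw [T.ι_ι]; exact desc_down T h) hy
  rwa [T.val_ι, mul_inv_cancel_right] at h1

end Pool.Agent.H728Z.RC
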