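import Mathlib

/-! Definitions and statements for the right-angled Coxeter versus Artin problem. -/

set_option autoImplicit false

namespace Pool.Agent.H728Z.RC

/-- relators of the right-angled Coxeter group -/
def cRel {V : Type} (Γ : SimpleGraph V) : Set (FreeGroup V) :=
  {r : FreeGroup V | (∃ a, r = FreeGroup.of a * FreeGroup.of a) ∨
    ∃ a b, Γ.Adj a b ∧ r = (FreeGroup.of a * FreeGroup.of b) ^ 2}

/-- relators of the right-angled Artin group -/
def aRel {V : Type} (Λ : SimpleGraph V) : Set (FreeGroup V) :=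
  {r : FreeGroup V | ∃ a b, Λ.Adj a b ∧
    r = FreeGroup.of a * FreeGroup.of b * (FreeGroup.of a)⁻¹ * (FreeGroup.of b)⁻¹}

/-- right-angled Coxeter group -/
abbrev CG {V : Type} (Γ : SimpleGraph V) : Type := PresentedGroup (cRel Γ)

/-- right-angled Artin group -/
abbrev AG {V : Type} (Λ : SimpleGraph V) : Type := PresentedGroup (aRel Λ)

/-- `g` has word length at most `N` -/
def Sh {V : Type} [DecidableEq V] (R : Set (FreeGroup V)) (g : PresentedGroup R) (N : ℕ) : Prop :=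
  ∃ w : FreeGroup V, PresentedGroup.mk R w = g ∧ w.toWord.length ≤ N

/-- quasi-isometry of presented groups in the word metrics -/
def QI {V V' : Type} [DecidableEq V] [DecidableEq V'] (R : Set (FreeGroup V))
    (R' : Set (FreeGroup V')) : Prop :=
  ∃ (f : PresentedGroup R → PresentedGroup R') (K C : ℕ),
    (∀ x y (N : ℕ), Sh R (x⁻¹ * y) N → Sh R' ((f x)⁻¹ * f y) (K * N + C)) ∧
    (∀ x y (N : ℕ), Sh R' ((f x)⁻¹ * f y) N → Sh R (x⁻¹ * y) (K * N + C)) ∧
    (∀ z, ∃ x, Sh R' ((f x)⁻¹ * z) C)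

/-- The Coxeter graph: `(i,0) = a i`, `(i,1) = b i`, `(i,2) = d i`. -/
def GW : SimpleGraph (Fin 5 × Fin 3) where
  Adj x y := (x.2 ≠ 2 ∧ y.2 ≠ 2 ∧ (y.1 = x.1 + 1 ∨ x.1 = y.1 + 1)) ∨
    (x.1 = y.1 ∧ ((x.2 = 2 ∧ y.2 ≠ 2) ∨ (x.2 ≠ 2 ∧ y.2 = 2)))
  symm := ⟨by decide⟩
  loopless := ⟨by decide⟩

instance : DecidableRel GW.Adj := fun x y => by unfold GW; infer_instance

/-- The sun graph: pentagon `(i,false)` with whiskers `(i,true)`. -/
def GA : SimpleGraph (Fin 5 × Bool) where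
  Adj x y := (x.2 = false ∧ y.2 = false ∧ (y.1 = x.1 + 1 ∨ x.1 = y.1 + 1)) ∨
    (x.1 = y.1 ∧ x.2 ≠ y.2)
  symm := ⟨by decide⟩
  loopless := ⟨by decide⟩

instance : DecidableRel GA.Adj := fun x y => by unfold GA; infer_instance

/-- the doubled graph -/
def dbl {V : Type} (Λ : SimpleGraph V) : SimpleGraph (V × Bool) := Λ.comap Prod.fst

/-- generators of the example group -/
def gw (x : Fin 5 × Fin 3) : CG GW := PresentedGroup.of x

/-- the subgroup generated by all `a i`, `b i` -/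
def BW : Subgroup (CG GW) := Subgroup.closure (gw '' {x | x.2 ≠ 2})

/-- the infinite dihedral subgroup generated by `a j`, `b j` -/
def DW (j : Fin 5) : Subgroup (CG GW) := Subgroup.closure (gw '' {x | x.1 = j ∧ x.2 ≠ 2})

/-- ping-pong form of the normal form theorem for the amalgam along the `DW j` -/
def PingPong : Prop :=
  ∃ X : Fin 5 → Set (CG GW),
    (∀ j, ∀ β ∈ BW, β ∉ X j) ∧
    (∀ j, ∀ β ∈ BW, gw (j, 2) * β ∈ X j) ∧
    (∀ j j' z, z ∈ X j' → ∀ β ∈ BW, ¬ (j = j' ∧ β ∈ DW j) → gw (j, 2) * β * z ∈ X j)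

/-- task TREE -/
def TreeStmt : Prop := PingPong → QI (cRel (dbl GA)) (cRel GW)

/-- task DJ -/
def DJStmt : Prop :=
  QI (cRel (dbl GA)) (cRel GW) →
    QI (cRel (GW.comap (finProdFinEquiv (m := 5) (n := 3)).symm))
      (aRel (GA.comap ((finProdFinEquiv (m := 5) (n := 2)).symm.trans
        (Equiv.prodCongr (Equiv.refl (Fin 5)) finTwoEquiv))))

/-- task COUNT -/
def CountStmt : Prop :=
  ∀ (F L : Type) [Group F] [Group L] (ι : Type) [Finite ι] (t : ι → F) (s : Fin 5 → L),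
    Subgroup.closure (Set.range t) = ⊤ →
    (∀ (H : Type) [Group H] (f : ι → H), ∃ φ : F →* H, ∀ i, φ (t i) = f i) →
    Subgroup.closure (Set.range s) = ⊤ → (∀ j, s j * s j = 1) →
    (∀ (H : Type) [Group H] (f : Fin 5 → H), (∀ j, f j * f j = 1) →
      ∃ φ : L →* H, ∀ j, φ (s j) = f j) →
    ∀ (H : Type) [Group H] (φ : H →* F) (ψ : H →* L) (β : F ≃ L),
      (∀ h x, β (φ h * x) = ψ h * β x) → φ.range.index ≠ 0 →
      (∀ h g j, ψ h ≠ g * s j * g⁻¹) → False

end Pool.Agent.H728Z.RC
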