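import Pool.Agent.H728Z.RC.Main
import Pool.Agent.H728Z.RC.Spec

/-! The Coxeter side. -/

set_option autoImplicit false

namespace Pool.Agent.H728Z.RC

theorem dih {G : Type} [Group G] {s t : G} (hs : s * s = 1) (ht : t * t = 1) {g : G}
    (hg : g ∈ Subgroup.closure ({s, t} : Set G)) :
    ∃ k : ℤ, g = (s * t) ^ k ∨ g = (s * t) ^ k * s := by
  have e1 : s⁻¹ = s := inv_eq_of_mul_eq_one_right hs
  have e2 : t⁻¹ = t := inv_eq_of_mul_eq_one_right ht
  have key : ∀ g y, y ∈ ({s, t} : Set G) → (∃ k : ℤ, g = (s * t) ^ k ∨ g = (s * t) ^ k * s) →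
      ∃ k : ℤ, g * y = (s * t) ^ k ∨ g * y = (s * t) ^ k * s := by
    rintro g y (rfl | rfl) ⟨k, rfl | rfl⟩
    · exact ⟨k, Or.inr rfl⟩
    · exact ⟨k, Or.inl (by rw [mul_assoc, hs, mul_one])⟩
    · refine ⟨k - 1, Or.inr ?_⟩
      rw [zpow_sub_one, mul_inv_rev, e1, e2, mul_assoc, mul_assoc, hs, mul_one]
    · exact ⟨k + 1, Or.inl (by rw [zpow_add_one, mul_assoc])⟩
  induction hg using Subgroup.closure_induction_right with
  | one => exact ⟨0, Or.inl (by simp)⟩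
  | mul_right g _ y hy ih => exact key g y hy ih
  | mul_inv_cancel g _ y hy ih =>
    refine key g _ ?_ ih
    rcases hy with rfl | rfl
    · rw [e1]; simp
    · rw [e2]; simp

theorem dih_conj {G : Type} [Group G] {s t : G} (hs : s * s = 1) (ht : t * t = 1) :
    s * (s * t) * s⁻¹ = (s * t)⁻¹ := by
  have e1 : s⁻¹ = s := inv_eq_of_mul_eq_one_right hs
  have e2 : t⁻¹ = t := inv_eq_of_mul_eq_one_right ht
  rw [mul_inv_rev, e1, e2, ← mul_assoc, hs, one_mul]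

theorem dih_sq {G : Type} [Group G] {s t : G} (hs : s * s = 1) (ht : t * t = 1) {g : G}
    (hg : g ∈ Subgroup.closure ({s, t} : Set G)) : ∃ k : ℤ, g ^ 2 = (s * t) ^ k := by
  obtain ⟨k, rfl | rfl⟩ := dih hs ht hg
  · exact ⟨k + k, by rw [zpow_add, sq]⟩
  · refine ⟨0, ?_⟩
    have e1 : s⁻¹ = s := inv_eq_of_mul_eq_one_right hs
    have h1 : s * (s * t) ^ k * s⁻¹ = ((s * t) ^ k)⁻¹ := by
      rw [← conj_zpow, dih_conj hs ht, inv_zpow]
    rw [e1] at h1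
    rw [sq, mul_assoc, ← mul_assoc s, h1]
    simp

/-- vertices of the example -/
abbrev VW : Type := Fin 5 × Fin 3

/-- a group with the presentation of the example -/
structure IsW {G : Type} [Group G] (T : TG VW G) : Prop where
  hι : ∀ x, T.ι x = x
  hC : ∀ x y, T.C x y ↔ GW.Adj x y

variable {G : Type} [Group G] {T : TG VW G} (w : IsW T)

/-- twin class of a vertex -/
def cls (y x : VW) : Prop := x.1 = y.1 ∧ (x.2 = 2 ↔ y.2 = 2)

instance (y x : VW) : Decidable (cls y x) := by unfold cls; infer_instance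

namespace IsW

include w

theorem sq (x : VW) : T.val x * T.val x = 1 := by
  nth_rewrite 1 [← w.hι x]
  rw [T.val_ι, inv_mul_cancel]

theorem ic (S : Set VW) : IC T S := fun y h => by rwa [w.hι]

theorem exists_pr (y : VW) : ∃ φ : G →* ℤˣ, ∀ x, φ (T.val x) = if cls y x then -1 else 1 := by
  apply T.lift
  · intro x
    rw [w.hι]
    split_ifs <;> rfl
  · intro x y _
    exact Commute.all _ _

/-- parity homomorphisms -/
noncomputable def pr (y : VW) : G →* ℤˣ := (w.exists_pr y).choose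

theorem pr_val (y x : VW) : w.pr y (T.val x) = if cls y x then -1 else 1 :=
  (w.exists_pr y).choose_spec x

/-- the parity kernel -/
noncomputable def KW : Subgroup G := ⨅ y, (w.pr y).ker

theorem mem_KW {g : G} : g ∈ w.KW ↔ ∀ y, w.pr y g = 1 := by simp [KW]

theorem KW_fi : w.KW.FiniteIndex := Subgroup.finiteIndex_iInf fun _ => inferInstance

theorem KW_conj {g : G} (h : g ∈ w.KW) (c : G) : c * g * c⁻¹ ∈ w.KW := by
  rw [mem_KW] at h ⊢
  intro y
  simp [h y]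

theorem pr_kill {y : VW} {S : Set VW} (hS : ∀ x ∈ S, ¬ cls y x) {g : G} (hg : g ∈ sub T S) :
    w.pr y g = 1 := by
  refine sub_ind (w.ic S) (P := fun g => w.pr y g = 1) (map_one _) ?_ hg
  intro g x _ hx ih
  rw [map_mul, ih, pr_val, if_neg (hS x hx), one_mul]

theorem pr_ret {y : VW} {S : Set VW} (hS : ∀ x, cls y x → x ∈ S) (g : G) :
    w.pr y (ret T S g) = w.pr y g := by
  induction g using G_ind T with
  | h1 => simp
  | h2 g x ih =>
    rw [map_mul, map_mul, map_mul, ih]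
    by_cases h : x ∈ S
    · rw [ret_pos (w.ic S) h]
    · rw [ret_neg h, pr_val, if_neg (fun h' => h (hS x h')), map_one]

theorem good {g : G} (h : g ∈ w.KW) : Good T g := by
  intro c y u _ hu e
  have h1 := (w.mem_KW.1 (w.KW_conj h c)) y
  have h2 : ∀ y x : VW, GW.Adj y x → ¬ cls y x := by decide
  rw [e, map_mul, w.pr_kill (fun x hx => h2 y x ((w.hC _ _).1 hx)) hu, pr_val,
    if_pos ⟨rfl, Iff.rfl⟩] at h1
  exact absurd h1 (by decide)

theorem z_mem (i : Fin 5) : T.val (i, 0) * T.val (i, 1) ∈ w.KW := by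
  rw [mem_KW]
  intro y
  have : ∀ (i : Fin 5) (y : VW), cls y (i, 0) ↔ cls y (i, 1) := by decide
  rw [map_mul, pr_val, pr_val]
  by_cases h : cls y (i, 0)
  · rw [if_pos h, if_pos ((this i y).1 h)]
    decide
  · rw [if_neg h, if_neg (fun h' => h ((this i y).2 h'))]
    decide

theorem z_inf (i : Fin 5) (k : ℤ) (h : (T.val (i, 0) * T.val (i, 1)) ^ k = 1) : k = 0 := by
  obtain ⟨φ, hφ⟩ := T.lift (DihedralGroup 0)
    (fun x => if x = (i, 0) then .sr 0 else if x = (i, 1) then .sr 1 else 1)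
    (by
      intro x
      rw [w.hι]
      split_ifs <;> simp)
    (by
      intro x y h
      have h1 : ∀ (i : Fin 5) (x y : VW), GW.Adj x y →
          (x ≠ (i, 0) ∧ x ≠ (i, 1)) ∨ (y ≠ (i, 0) ∧ y ≠ (i, 1)) := by decide
      rcases h1 i x y ((w.hC _ _).1 h) with ⟨a, b⟩ | ⟨a, b⟩
      · simp only [if_neg a, if_neg b]
        exact Commute.one_left _
      · simp only [if_neg a, if_neg b]
        exact Commute.one_right _)
  have h1 := congrArg φ h
  rw [map_zpow, map_mul, hφ, hφ, map_one] at h1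
  simp only [if_true, Prod.mk.injEq, true_and, one_ne_zero, if_false, DihedralGroup.sr_mul_sr,
    sub_zero, DihedralGroup.r_one_zpow, DihedralGroup.one_def, DihedralGroup.r.injEq] at h1
  exact h1

omit w in
theorem sub_pair {U : Set VW} {s t : VW} (h : ∀ x ∈ U, x = s ∨ x = t) {g : G} (hg : g ∈ sub T U) :
    g ∈ Subgroup.closure ({T.val s, T.val t} : Set G) := by
  refine Subgroup.closure_mono ?_ hg
  rintro _ ⟨x, hx, rfl⟩
  rcases h x hx with rfl | rfl <;> simp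

omit w in
theorem S_pair (i : Fin 5) : ∀ x ∈ {x : VW | x.1 = i ∧ x.2 ≠ 2}, x = (i, 0) ∨ x = (i, 1) := by
  have : ∀ (i : Fin 5) (x : VW), x.1 = i ∧ x.2 ≠ 2 → x = (i, 0) ∨ x = (i, 1) := by decide
  exact this i

/-- the class system of the example -/
def X : CS T (Fin 5) where
  S i := {x | x.1 = i ∧ x.2 ≠ 2}
  K i := {x | GW.Adj (i, 0) x}
  z i := T.val (i, 0) * T.val (i, 1)
  ic _ := w.ic _
  ne i := ⟨(i, 0), rfl, by simp⟩
  twin i y hy := by
    have : ∀ (i : Fin 5) (y x : VW), y.1 = i ∧ y.2 ≠ 2 → (GW.Adj y x ↔ GW.Adj (i, 0) x) := by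
      decide
    ext x
    exact (w.hC _ _).trans (this i y x hy)
  zmem i := mul_mem (val_mem ⟨rfl, by simp⟩) (val_mem ⟨rfl, by simp⟩)
  zinf := w.z_inf
  norm i u hu := by
    obtain ⟨k, rfl | rfl⟩ := dih (w.sq _) (w.sq _) (sub_pair (S_pair i) hu)
    · left
      generalize T.val (i, 0) * T.val (i, 1) = z
      group
    · right
      have := dih_conj (w.sq (i, 0)) (w.sq (i, 1))
      generalize T.val (i, 0) * T.val (i, 1) = z at *
      calc _ = z ^ k * (T.val (i, 0) * z * (T.val (i, 0))⁻¹) * (z ^ k)⁻¹ := by group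
        _ = _ := by rw [this]; group
  disj i j h x h1 h2 := h (h1.1.symm.trans h2.1)
  good i k _ := w.good (zpow_mem (w.z_mem i) k)

theorem adj_iff (i j : Fin 5) : w.X.Adj i j ↔ (j = i + 1 ∨ i = j + 1) := by
  have : ∀ i j : Fin 5, (∀ x : VW, x.1 = j ∧ x.2 ≠ 2 → GW.Adj (i, 0) x) ↔
      (j = i + 1 ∨ i = j + 1) := by decide
  exact this i j

theorem tri (i : Fin 5) : w.X.Tri i := by
  have : ∀ (i : Fin 5) (s t : VW), GW.Adj (i, 0) s → GW.Adj (i, 0) t → ¬ GW.Adj s t := by decide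
  intro s hs t ht h
  exact this i s t hs ht ((w.hC _ _).1 h)

theorem noSq : w.X.NoSq := by
  have : ∀ (i j k : Fin 5) (x : VW), i ≠ j → (k = i + 1 ∨ i = k + 1) → (k = j + 1 ∨ j = k + 1) →
      GW.Adj (i, 0) x → GW.Adj (j, 0) x → x.1 = k ∧ x.2 ≠ 2 := by decide
  intro i j k _ h1 h2 h3 x hx
  exact this i j k x h1 ((w.adj_iff _ _).1 h2) ((w.adj_iff _ _).1 h3) hx.1 hx.2

theorem hmax (g : G) : ∃ i, ∀ s ∈ w.X.St i, ¬ Desc T s g := by
  have h1 : ∀ x y : VW, (x = y ∨ GW.Adj x y) → ∃ i : Fin 5,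
      ¬ ((x.1 = i ∧ x.2 ≠ 2) ∨ GW.Adj (i, 0) x) ∧ ¬ ((y.1 = i ∧ y.2 ≠ 2) ∨ GW.Adj (i, 0) y) := by
    decide
  have h2 : ∀ x y z : VW, GW.Adj x y → GW.Adj x z → ¬ GW.Adj y z := by decide
  have h3 : ∀ x y, Desc T x g → Desc T y g → x ≠ y → GW.Adj x y :=
    fun x y a b c => (w.hC _ _).1 (desc_adj T a b c)
  by_cases e1 : ∃ x, Desc T x g
  · obtain ⟨x, hx⟩ := e1
    by_cases e2 : ∃ y, Desc T y g ∧ x ≠ y
    · obtain ⟨y, hy, hxy⟩ := e2
      obtain ⟨i, a, b⟩ := h1 x y (Or.inr (h3 x y hx hy hxy))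
      refine ⟨i, fun s hs h => ?_⟩
      by_cases c1 : x = s
      · exact a (c1 ▸ hs)
      · by_cases c2 : y = s
        · exact b (c2 ▸ hs)
        · exact h2 x y s (h3 x y hx hy hxy) (h3 x s hx h c1) (h3 y s hy h c2)
    · obtain ⟨i, a, -⟩ := h1 x x (Or.inl rfl)
      refine ⟨i, fun s hs h => ?_⟩
      by_cases c1 : x = s
      · exact a (c1 ▸ hs)
      · exact e2 ⟨s, h, c1⟩
  · exact ⟨0, fun s _ h => e1 ⟨s, h⟩⟩

theorem D_zpow {i : Fin 5} {g : G} (hg : g ∈ sub T (w.X.S i)) (hK : g ∈ w.KW) :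
    ∃ k : ℤ, g = w.X.z i ^ k := by
  obtain ⟨k, rfl | rfl⟩ := dih (w.sq _) (w.sq _) (sub_pair (S_pair i) hg)
  · exact ⟨k, rfl⟩
  · exfalso
    have h1 := w.mem_KW.1 hK (i, 0)
    rw [map_mul, w.mem_KW.1 (zpow_mem (w.z_mem i) k), pr_val, if_pos ⟨rfl, Iff.rfl⟩] at h1
    exact absurd h1 (by decide)

theorem WP {g u v : G} (hK : g ∈ w.KW) (h1 : g ≠ 1) (hu : Commute u g) (hv : Commute v g)
    (hn : ∀ N : ℕ, 0 < N → ¬ Commute (u ^ N) (v ^ N)) : ∃ i x, w.X.Cl i x g := by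
  obtain ⟨c, N, S, hN, hg, hc⟩ := cent_S1 (w.good hK) (hu.pow_left 2) (hv.pow_left 2)
  have hK' := w.KW_conj hK c
  have h1' : c * g * c⁻¹ ≠ 1 := by simpa using h1
  by_cases e : ∃ s t, ∀ x ∈ {t | ∀ s ∈ S, T.C s t}, x = s ∨ x = t
  · exfalso
    obtain ⟨s, t, e⟩ := e
    apply hn (2 * N) (by omega)
    have a1 := ret_of_mem (w.ic _) hc
    obtain ⟨k, hk⟩ := dih_sq (w.sq s) (w.sq t)
      (sub_pair e (ret_mem' (w.ic {t | ∀ s ∈ S, T.C s t}) u))
    obtain ⟨l, hl⟩ := dih_sq (w.sq s) (w.sq t)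
      (sub_pair e (ret_mem' (w.ic {t | ∀ s ∈ S, T.C s t}) v))
    simp only [map_mul, map_inv, map_pow, hk, hl] at a1
    have a2 : Commute (((T.val s * T.val t) ^ k) ^ N) (((T.val s * T.val t) ^ l) ^ N) :=
      (Commute.zpow_zpow_self _ k l).pow_pow N N
    rw [a2.eq] at a1
    simp only [mul_inv_cancel_right, mul_inv_cancel, mul_one] at a1
    have a3 : (u ^ 2) ^ N * (v ^ 2) ^ N * ((u ^ 2) ^ N)⁻¹ * ((v ^ 2) ^ N)⁻¹ = 1 := by
      simpa using a1.symm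
    rw [mul_inv_eq_one, mul_inv_eq_iff_eq_mul] at a3
    rw [pow_mul, pow_mul]
    exact a3
  · push Not at e
    obtain ⟨t1, a1, -⟩ := e (0, 0) (0, 0)
    obtain ⟨t2, a2, b2, -⟩ := e t1 t1
    obtain ⟨t3, a3, b3, c3⟩ := e t1 t2
    have key : ∀ x y : VW, x ≠ y →
        2 < (Finset.univ.filter fun t => GW.Adj x t ∧ GW.Adj y t).card →
        x.2 ≠ 2 ∧ y.1 = x.1 ∧ y.2 ≠ 2 := by decide
    have k2 : ∀ x ∈ S, ∀ y ∈ S, x ≠ y → x.2 ≠ 2 ∧ y.1 = x.1 ∧ y.2 ≠ 2 := by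
      intro x hx y hy hxy
      refine key x y hxy (Finset.two_lt_card.2 ⟨t1, ?_, t2, ?_, t3, ?_, b2.symm, b3.symm, c3.symm⟩)
      · simpa using ⟨(w.hC _ _).1 (a1 x hx), (w.hC _ _).1 (a1 y hy)⟩
      · simpa using ⟨(w.hC _ _).1 (a2 x hx), (w.hC _ _).1 (a2 y hy)⟩
      · simpa using ⟨(w.hC _ _).1 (a3 x hx), (w.hC _ _).1 (a3 y hy)⟩
    rcases S.eq_empty_or_nonempty with rfl | ⟨x, hx⟩
    · exact absurd (sub_empty hg) h1'
    by_cases hx2 : x.2 = 2
    · exfalso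
      have k3 : ∀ y ∈ S, y = x ∨ y = x := by
        intro y hy
        by_contra hc
        exact (k2 x hx y hy fun h => hc (Or.inl h.symm)).1 hx2
      obtain ⟨k, h | h⟩ := dih (w.sq x) (w.sq x) (sub_pair k3 hg)
      · rw [w.sq, one_zpow] at h
        exact h1' h
      · rw [w.sq, one_zpow, one_mul] at h
        have h2 := w.mem_KW.1 hK' x
        rw [h, pr_val, if_pos ⟨rfl, Iff.rfl⟩] at h2
        exact absurd h2 (by decide)
    · have k3 : S ⊆ w.X.S x.1 := by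
        intro y hy
        by_cases hxy : x = y
        · exact hxy ▸ ⟨rfl, hx2⟩
        · exact (k2 x hx y hy hxy).2
      obtain ⟨k, hk⟩ := w.D_zpow (sub_mono k3 hg) hK'
      refine ⟨x.1, c⁻¹, k, ?_, ?_⟩
      · rintro rfl
        exact h1' (by simpa using hk)
      · rw [← hk]
        group

theorem ret_KW {i : Fin 5} {g : G} (h : g ∈ w.KW) : ret T (w.X.K i) g ∈ w.KW := by
  have h1 : ∀ (i : Fin 5) (y : VW), (∀ x, cls y x → GW.Adj (i, 0) x) ∨
      (∀ x, GW.Adj (i, 0) x → ¬ cls y x) := by decide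
  rw [mem_KW] at h ⊢
  intro y
  rcases h1 i y with h2 | h2
  · rw [w.pr_ret (S := w.X.K i) h2, h y]
  · exact w.pr_kill h2 (ret_mem' (w.ic _) g)

theorem free_rel {i : Fin 5} {a b : G} (ha : a ∈ w.X.N i) (hb : b ∈ w.X.N i) (ka : a ∈ w.KW)
    (kb : b ∈ w.KW) (hab : Commute a b) :
    ∃ (m n k : ℤ), (m ≠ 0 ∨ n ≠ 0) ∧ (a ^ m)⁻¹ * b ^ n = w.X.z i ^ k := by
  have key : ∃ m n : ℤ, (m ≠ 0 ∨ n ≠ 0) ∧ ret T (w.X.K i) a ^ m = ret T (w.X.K i) b ^ n := by
    by_cases h : ret T (w.X.K i) a = 1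
    · exact ⟨1, 0, Or.inl one_ne_zero, by simp [h]⟩
    · obtain ⟨c, hc, y, hy, N, m, hN, h1⟩ := cent_S3 (w.ic _) (ret_mem' (w.ic (w.X.K i)) a) h
        (w.good (w.ret_KW ka)) (hab.symm.map _)
      refine ⟨m, N, Or.inr (by omega), ?_⟩
      have h2 := mem_inter (w.ic _) h1 (mul_mem (mul_mem hc (mul_mem (inv_mem (zpow_mem
        (ret_mem' (w.ic (w.X.K i)) a) m)) (pow_mem (ret_mem' (w.ic (w.X.K i)) b) N))) (inv_mem hc))
      have h3 := sub_empty (sub_mono (fun x hx => w.tri i y hy x hx.2 hx.1) h2)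
      rw [zpow_natCast, ← inv_mul_eq_one]
      simpa using h3
  obtain ⟨m, n, h1, h2⟩ := key
  rw [← map_zpow, ← map_zpow, CS.ret_eq_iff (zpow_mem ha m) (zpow_mem hb n)] at h2
  obtain ⟨k, hk⟩ := w.D_zpow h2 (mul_mem (inv_mem (zpow_mem ka m)) (zpow_mem kb n))
  exact ⟨m, n, k, h1, hk⟩

end IsW

end Pool.Agent.H728Z.RC
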